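import Pool.Agent.W764.SH.Inv
import Pool.Agent.W764.FB.Mix

/-!
Decomposition of an invariant measure into a multiple of Lebesgue measure and a part on which
`×p` is essentially injective.
-/

set_option autoImplicit false

open MeasureTheory Filter Topology Set
open scoped ENNReal

namespace Pool.Agent.W764.SH

open Pool.Agent.W764.FB

/-- the set where the products of the density along the orbit tend to zero -/
def DD (p : ℕ) (ψ : T → ℝ≥0∞) : Set T := {x | ⨅ n, phi p ψ n x = 0}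

lemma meas_DD (p : ℕ) {ψ : T → ℝ≥0∞} (hψ : Measurable ψ) : MeasurableSet (DD p ψ) :=
  measurableSet_eq_fun (Measurable.iInf fun n => measurable_phi p hψ n) measurable_const

lemma mem_DD {p : ℕ} {ψ : T → ℝ≥0∞} {x : T} :
    x ∈ DD p ψ ↔ ∀ δ : ℝ≥0∞, 0 < δ → ∃ n, phi p ψ n x < δ := by
  show ⨅ n, phi p ψ n x = 0 ↔ _
  rw [← bot_eq_zero', iInf_eq_bot]

lemma ae_pow {p : ℕ} {μ : Measure T} (hip : MeasurePreserving (fun x : T => p • x) μ μ)
    {P : T → Prop} (h : ∀ᵐ x ∂μ, P x) : ∀ᵐ x ∂μ, ∀ j : ℕ, P ((p ^ j) • x) := by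
  rw [ae_all_iff]
  intro j
  induction j with
  | zero => simpa using h
  | succ j ih =>
    have h1 := hip.quasiMeasurePreserving.ae ih
    filter_upwards [h1] with x hx
    rw [pow_succ, mul_smul]
    exact hx

lemma DD_q {p q : ℕ} {μ : Measure T} (hip : MeasurePreserving (fun x : T => p • x) μ μ)
    {ψ : T → ℝ≥0∞} (h : ∀ᵐ x ∂μ, ψ (q • x) = ψ x) : ∀ᵐ x ∂μ, (q • x ∈ DD p ψ ↔ x ∈ DD p ψ) := by
  filter_upwards [ae_pow hip h] with x hx
  have h1 : ∀ n, phi p ψ n (q • x) = phi p ψ n x := by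
    intro n
    unfold phi
    refine Finset.prod_congr rfl fun j _ => ?_
    rw [smul_comm, hx j]
  rw [mem_DD, mem_DD]
  simp_rw [h1]

lemma psi_pos {p : ℕ} {μ : Measure T} {ψ : T → ℝ≥0∞} (hψ : Measurable ψ)
    (h : ∀ g : T → ℝ≥0∞, Measurable g → ∫⁻ x, fs p 1 (fun y => ψ y * g y) x ∂μ = ∫⁻ x, g x ∂μ) :
    ∀ᵐ x ∂μ, ψ x ≠ 0 := by
  set Z : Set T := {x | ψ x = 0} with hZ
  have hZm : MeasurableSet Z := measurableSet_eq_fun hψ measurable_const
  have h1 := h (Z.indicator 1) (measurable_one.indicator hZm)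
  rw [lintegral_indicator_one hZm] at h1
  have h2 : ∀ y, ψ y * Z.indicator (1 : T → ℝ≥0∞) y = 0 := by
    intro y
    by_cases hy : y ∈ Z
    · have : ψ y = 0 := hy
      rw [this, zero_mul]
    · rw [indicator_of_notMem hy, mul_zero]
  unfold fs at h1
  simp_rw [h2] at h1
  simp only [Finset.sum_const_zero, lintegral_zero] at h1
  rw [ae_iff]
  convert h1.symm using 2
  ext x
  simp [hZ]

lemma DD_p {p : ℕ} {μ : Measure T} {ψ : T → ℝ≥0∞} (hψ1 : ∀ x, ψ x ≤ 1)
    (h : ∀ᵐ x ∂μ, ψ x ≠ 0) : ∀ᵐ x ∂μ, (p • x ∈ DD p ψ ↔ x ∈ DD p ψ) := by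
  filter_upwards [h] with x hx
  rw [mem_DD, mem_DD]
  constructor
  · intro h1 δ hδ
    obtain ⟨n, hn⟩ := h1 δ hδ
    refine ⟨n + 1, ?_⟩
    rw [phi_succ]
    exact (mul_le_of_le_one_left' (hψ1 x)).trans_lt hn
  · intro h1 δ hδ
    have hxt : ψ x ≠ ⊤ := ne_top_of_le_ne_top (by simp) (hψ1 x)
    obtain ⟨n, hn⟩ := h1 (ψ x * δ) (by
      rw [pos_iff_ne_zero]
      exact mul_ne_zero hx hδ.ne')
    refine ⟨n, ?_⟩
    have h2 : phi p ψ (n + 1) x < ψ x * δ := (phi_anti p hψ1 x (Nat.le_succ n)).trans_lt hn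
    rw [phi_succ] at h2
    exact lt_of_mul_lt_mul_left' h2

lemma DD_one {p : ℕ} {μ : Measure T} [IsFiniteMeasure μ]
    (hip : MeasurePreserving (fun x : T => p • x) μ μ) {ψ : T → ℝ≥0∞} (hψ : Measurable ψ)
    (hψ1 : ∀ x, ψ x ≤ 1) : ∀ᵐ x ∂μ, x ∉ DD p ψ → ψ x = 1 := by
  obtain ⟨u, -, hu, hulim⟩ := exists_seq_strictMono_tendsto' (show (0 : ℝ≥0∞) < 1 by norm_num)
  have hiter : ∀ (n : ℕ) (x : T), (fun x : T => p • x)^[n] x = (p ^ n) • x := by
    intro n
    induction n with
    | zero => intro x; simp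
    | succ n ih =>
      intro x
      rw [Function.iterate_succ_apply, ih, pow_succ, mul_smul]
  have hj : ∀ j, ∀ᵐ x ∂μ, ψ x ≤ u j → x ∈ DD p ψ := by
    intro j
    have hEm : MeasurableSet {x | ψ x ≤ u j} := measurableSet_le hψ measurable_const
    have hrec := hip.conservative.ae_mem_imp_frequently_image_mem hEm.nullMeasurableSet
    filter_upwards [hrec] with x hx hxE
    rw [mem_DD]
    intro δ hδ
    obtain ⟨δ', hδ', hδδ⟩ := exists_between hδ
    obtain ⟨n, hn⟩ := phi_eventually p hψ1 (hu j).2 (x := x) (by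
      refine (hx hxE).mono fun n hn => ?_
      rw [hiter] at hn
      exact hn) hδ'
    exact ⟨n, hn.trans_lt hδδ⟩
  rw [← ae_all_iff] at hj
  filter_upwards [hj] with x hx hxD
  by_contra hne
  have hlt : ψ x < 1 := lt_of_le_of_ne (hψ1 x) hne
  obtain ⟨j, hj⟩ := (hulim.eventually (lt_mem_nhds hlt)).exists
  exact hxD (hx j hj.le)

lemma restrict_mp {n : ℕ} {μ : Measure T} (hi : MeasurePreserving (fun x : T => n • x) μ μ)
    {D : Set T} (hD : MeasurableSet D) (h : ∀ᵐ x ∂μ, (n • x ∈ D ↔ x ∈ D)) :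
    MeasurePreserving (fun x : T => n • x) (μ.restrict D) (μ.restrict D) := by
  have h1 := hi.restrict_preimage hD
  have h2 : ((fun x : T => n • x) ⁻¹' D : Set T) =ᵐ[μ] D := by
    rw [eventuallyEq_set]
    exact h
  rwa [Measure.restrict_congr_set h2] at h1

/-- choice of the length of the sums -/
lemma exists_length' {p C : ℕ} (hp : 2 ≤ p) (hC : 1 ≤ C) :
    ∃ N : ℕ → ℕ, (∀ n, C * N n ≤ p ^ n) ∧
      ∀ᶠ n in atTop, 1 ≤ N n ∧ (p : ℝ) ^ n ≤ (2 * C) * N n := by
  obtain ⟨N, -, h1, h2⟩ := exists_length hp hC 0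
  refine ⟨N, fun n => by simpa using h1 n, ?_⟩
  filter_upwards [h2] with n hn
  refine ⟨hn.1, ?_⟩
  simpa using hn.2

/-- the characters integrate to zero over `DD` -/
lemma fourier_DD {p q : ℕ} (hp : 2 ≤ p) (hq : 2 ≤ q) (hpq : Nat.Coprime p q) (μ : Measure T)
    [IsProbabilityMeasure μ] (hip : MeasurePreserving (fun x : T => p • x) μ μ)
    (hiq : MeasurePreserving (fun x : T => q • x) μ μ) {ψ : T → ℝ≥0∞} (hψ : Measurable ψ)
    (hψ1 : ∀ x, ψ x ≤ 1)
    (h : ∀ g : T → ℝ≥0∞, Measurable g → ∫⁻ x, fs p 1 (fun y => ψ y * g y) x ∂μ = ∫⁻ x, g x ∂μ)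
    (hDq : ∀ᵐ x ∂μ, (q • x ∈ DD p ψ ↔ x ∈ DD p ψ)) {m : ℤ} (hm : m ≠ 0) :
    ∫ x in DD p ψ, fourier m x ∂μ = 0 := by
  set D := DD p ψ with hD
  have hDm : MeasurableSet D := meas_DD p hψ
  have hr := restrict_mp hiq hDm hDq
  obtain ⟨C, hC1, hC⟩ := ord_cop p q hp hq hpq
  have hm0 : 1 ≤ m.natAbs := Int.natAbs_pos.2 hm
  obtain ⟨N, hN1, hN2⟩ := exists_length' (C := C * m.natAbs) hp (Nat.mul_pos hC1 hm0)
  -- the integral as the integral of the averages
  have hav : ∀ n, 1 ≤ N n → ∫ x in D, fourier m x ∂μ =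
      ∫ x in D, ((N n : ℂ))⁻¹ * es q m (N n) x ∂μ := by
    intro n hn
    have hne : (N n : ℂ) ≠ 0 := by
      have : N n ≠ 0 := by omega
      exact_mod_cast this
    rw [integral_const_mul]
    unfold es
    have hint : ∀ i ∈ Finset.range (N n), Integrable (fun x => fourier m ((q ^ i) • x))
        (μ.restrict D) := fun i _ =>
      Pool.Agent.H847R3.XpXq.integrable_of_contC
        ((fourier m).continuous.comp (continuous_nsmul _)) _
    rw [integral_finsetSum _ hint]
    have h1 : ∀ i ∈ Finset.range (N n), ∫ x in D, fourier m ((q ^ i) • x) ∂μ =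
        ∫ x in D, fourier m x ∂μ := by
      intro i _
      have h2 := fc_inv (μ := μ.restrict D) hr hr m 0 i
      simp only [pow_zero, one_mul] at h2
      exact h2
    rw [Finset.sum_congr rfl h1, Finset.sum_const, Finset.card_range, nsmul_eq_mul]
    field_simp
  -- the main bound
  have key : ∀ δ : ℝ, 0 < δ → ‖∫ x in D, fourier m x ∂μ‖ ≤ √(δ * (2 * (C * m.natAbs : ℕ))) := by
    intro δ hδ
    set F : ℕ → Set T := fun n => {y | phi p ψ n y ≤ ENNReal.ofReal δ} with hF
    have hFm : ∀ n, MeasurableSet (F n) := fun n =>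
      measurableSet_le (measurable_phi p hψ n) measurable_const
    have hlim : Tendsto (fun n => μ.real (D \ F n)) atTop (𝓝 0) := by
      have hanti : Antitone fun n => D \ F n := by
        intro a b hab x hx
        exact ⟨hx.1, fun hc => hx.2 ((phi_anti p hψ1 x hab).trans hc)⟩
      have h1 : Tendsto (fun n => μ (D \ F n)) atTop (𝓝 (μ (⋂ n, D \ F n))) :=
        tendsto_measure_iInter_atTop (fun n => (hDm.diff (hFm n)).nullMeasurableSet) hanti
          ⟨0, measure_ne_top _ _⟩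
      have h2 : ⋂ n, D \ F n = ∅ := by
        rw [eq_empty_iff_forall_notMem]
        intro x hx
        rw [mem_iInter] at hx
        obtain ⟨n, hn⟩ := mem_DD.1 (hx 0).1 (ENNReal.ofReal δ) (ENNReal.ofReal_pos.2 hδ)
        exact (hx n).2 hn.le
      rw [h2, measure_empty] at h1
      have h3 := (ENNReal.tendsto_toReal (by simp : (0 : ℝ≥0∞) ≠ ⊤)).comp h1
      rw [ENNReal.toReal_zero] at h3
      exact h3
    have hb : ∀ᶠ n in atTop, ‖∫ x in D, fourier m x ∂μ‖ ≤
        √(δ * (2 * (C * m.natAbs : ℕ))) + μ.real (D \ F n) := by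
      filter_upwards [hN2] with n hn
      have hNn : (0 : ℝ) < N n := by exact_mod_cast hn.1
      have h1 := small_weight (q := q) (by omega : 0 < p) μ hip hψ h n (N n) m
        (distinct_cop hq hpq hC hm (by
          have := hN1 n
          calc C * N n * m.natAbs = C * m.natAbs * N n := by ring
            _ ≤ p ^ n := this) hC1) hδ.le
      set A : T → ℂ := fun x => ((N n : ℂ))⁻¹ * es q m (N n) x with hA
      have hAc : Continuous A := (continuous_es q m (N n)).const_mul _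
      have hA1 : ∀ x, ‖A x‖ ≤ 1 := by
        intro x
        have h2 : ‖es q m (N n) x‖ ≤ N n := by
          unfold es
          refine (norm_sum_le _ _).trans ?_
          refine (Finset.sum_le_card_nsmul _ _ 1 fun i _ => ?_).trans ?_
          · rw [fourier_apply]
            exact (Circle.norm_coe _).le
          · simp
        rw [hA]
        simp only [norm_mul, norm_inv, Complex.norm_natCast]
        calc (N n : ℝ)⁻¹ * ‖es q m (N n) x‖ ≤ (N n : ℝ)⁻¹ * N n := by gcongr
          _ = 1 := inv_mul_cancel₀ hNn.ne'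
      rw [hav n hn.1]
      have hAi : Integrable (fun x => ‖A x‖) μ :=
        Pool.Agent.H847R3.XpXq.integrable_of_cont hAc.norm μ
      have h2 : ‖∫ x in D, A x ∂μ‖ ≤ ∫ x in D, ‖A x‖ ∂μ := norm_integral_le_integral_norm _
      have h3 : ∫ x in D, ‖A x‖ ∂μ ≤ ∫ x in F n, ‖A x‖ ∂μ + ∫ x in D \ F n, ‖A x‖ ∂μ := by
        have h4 : ∫ x in D, ‖A x‖ ∂μ ≤ ∫ x in F n ∪ (D \ F n), ‖A x‖ ∂μ := by
          refine setIntegral_mono_set hAi.integrableOn
            (Eventually.of_forall fun x => norm_nonneg _) (LE.le.eventuallyLE ?_)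
          intro x hx
          by_cases hxF : x ∈ F n
          · exact Or.inl hxF
          · exact Or.inr ⟨hx, hxF⟩
        rw [setIntegral_union disjoint_sdiff_right (hDm.diff (hFm n)) hAi.integrableOn
          hAi.integrableOn] at h4
        exact h4
      have h5 : ∫ x in D \ F n, ‖A x‖ ∂μ ≤ μ.real (D \ F n) := by
        have h6 : ∫ x in D \ F n, ‖A x‖ ∂μ ≤ ∫ x in D \ F n, (1 : ℝ) ∂μ :=
          setIntegral_mono hAi.integrableOn (integrableOn_const (measure_ne_top _ _)) hA1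
        rw [setIntegral_const, smul_eq_mul, mul_one] at h6
        exact h6
      have h7 : ∫ x in F n, ‖A x‖ ∂μ ≤ √(δ * (2 * (C * m.natAbs : ℕ))) := by
        refine Real.le_sqrt_of_sq_le ?_
        have h8 : (∫ x in F n, ‖A x‖ ∂μ) ^ 2 ≤ ∫ x in F n, ‖A x‖ ^ 2 ∂μ := by
          set I := ∫ x in F n, ‖A x‖ ∂μ with hI
          have hsq : Integrable (fun x => ‖A x‖ ^ 2) μ :=
            Pool.Agent.H847R3.XpXq.integrable_of_cont (hAc.norm.pow 2) μ
          have h9 : 0 ≤ ∫ x in F n, (‖A x‖ - I) ^ 2 ∂μ :=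
            integral_nonneg fun x => sq_nonneg _
          have h10 : ∫ x in F n, (‖A x‖ - I) ^ 2 ∂μ =
              ∫ x in F n, ‖A x‖ ^ 2 ∂μ - 2 * I * I + I ^ 2 * μ.real (F n) := by
            have e : ∀ x, (‖A x‖ - I) ^ 2 = ‖A x‖ ^ 2 - 2 * I * ‖A x‖ + I ^ 2 := fun x => by ring
            simp_rw [e]
            have i1 : Integrable (fun x => ‖A x‖ ^ 2) (μ.restrict (F n)) := hsq.integrableOn
            have i2 : Integrable (fun x => 2 * I * ‖A x‖) (μ.restrict (F n)) :=
              (hAi.integrableOn.const_mul _)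
            have i3 : Integrable (fun x => ‖A x‖ ^ 2 - 2 * I * ‖A x‖) (μ.restrict (F n)) :=
              i1.sub i2
            have i4 : Integrable (fun _ : T => I ^ 2) (μ.restrict (F n)) :=
              integrableOn_const (measure_ne_top _ _)
            rw [integral_add i3 i4, integral_sub i1 i2, integral_const_mul,
              setIntegral_const, smul_eq_mul, ← hI]
            ring
          have h11 : μ.real (F n) ≤ 1 := measureReal_le_one
          have h12 : I ^ 2 * μ.real (F n) ≤ I ^ 2 * 1 :=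
            mul_le_mul_of_nonneg_left h11 (sq_nonneg _)
          nlinarith
        refine h8.trans ?_
        have h9 : ∫ x in F n, ‖A x‖ ^ 2 ∂μ = (N n : ℝ)⁻¹ ^ 2 *
            ∫ x in F n, ‖es q m (N n) x‖ ^ 2 ∂μ := by
          rw [← integral_const_mul]
          refine integral_congr_ae (Eventually.of_forall fun x => ?_)
          simp only [hA, norm_mul, norm_inv, Complex.norm_natCast]
          ring
        rw [h9]
        calc (N n : ℝ)⁻¹ ^ 2 * ∫ x in F n, ‖es q m (N n) x‖ ^ 2 ∂μ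
            ≤ (N n : ℝ)⁻¹ ^ 2 * (δ * ((p : ℝ) ^ n * N n)) :=
              mul_le_mul_of_nonneg_left h1 (by positivity)
          _ ≤ (N n : ℝ)⁻¹ ^ 2 * (δ * (((2 * (C * m.natAbs : ℕ)) * N n) * N n)) := by
              have := hn.2
              gcongr
          _ = δ * (2 * (C * m.natAbs : ℕ)) := by field_simp
      linarith
    have hl2 : Tendsto (fun n => √(δ * (2 * (C * m.natAbs : ℕ))) + μ.real (D \ F n)) atTop
        (𝓝 (√(δ * (2 * (C * m.natAbs : ℕ))) + 0)) := hlim.const_add _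
    rw [add_zero] at hl2
    exact ge_of_tendsto hl2 hb
  have hfin : ‖∫ x in D, fourier m x ∂μ‖ ≤ 0 := by
    have hcont : Tendsto (fun δ : ℝ => √(δ * (2 * (C * m.natAbs : ℕ)))) (𝓝[>] 0) (𝓝 0) := by
      have h1 : Tendsto (fun δ : ℝ => √(δ * (2 * (C * m.natAbs : ℕ)))) (𝓝 0)
          (𝓝 (√(0 * (2 * (C * m.natAbs : ℕ))))) :=
        (Real.continuous_sqrt.comp (continuous_mul_const _)).tendsto 0
      rw [zero_mul, Real.sqrt_zero] at h1
      exact h1.mono_left nhdsWithin_le_nhds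
    refine ge_of_tendsto hcont ?_
    filter_upwards [self_mem_nhdsWithin] with δ hδ
    exact key δ hδ
  exact norm_le_zero_iff.1 hfin

/-- **The decomposition.** -/
theorem decomp {p q : ℕ} (hp : 2 ≤ p) (hq : 2 ≤ q) (hpq : Nat.Coprime p q) (μ : Measure T)
    [IsProbabilityMeasure μ] (hip : MeasurePreserving (fun x : T => p • x) μ μ)
    (hiq : MeasurePreserving (fun x : T => q • x) μ μ) :
    ∃ D : Set T, MeasurableSet D ∧ (∀ᵐ x ∂μ, (p • x ∈ D ↔ x ∈ D)) ∧
      (∀ᵐ x ∂μ, (q • x ∈ D ↔ x ∈ D)) ∧ μ.restrict D = μ D • (volume : Measure T) ∧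
      ∃ B : Set T, MeasurableSet B ∧ μ (Dᶜ \ B) = 0 ∧
        ∀ x ∈ B, ∀ k, 1 ≤ k → k < p → x + hh p 1 k ∉ B := by
  obtain ⟨ψ, hψm, hψ1, hψ⟩ := exists_density (by omega : 0 < p) μ
  have hDq := DD_q hip (psi_inv (by omega : 0 < p) hpq μ hiq hψm hψ1 hψ)
  refine ⟨DD p ψ, meas_DD p hψm, DD_p hψ1 (psi_pos hψm hψ), hDq, ?_, ?_⟩
  · haveI : IsFiniteMeasure (μ (DD p ψ) • (volume : Measure T)) :=
      Measure.smul_finite _ (measure_ne_top _ _)
    refine ext_fourier fun m => ?_
    rcases eq_or_ne m 0 with rfl | hm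
    · simp [measureReal_def]
    · rw [fourier_DD hp hq hpq μ hip hiq hψm hψ1 hψ hDq hm, integral_smul_measure,
        Pool.Agent.H847R3.XpXq.integral_fourier_zero hm, smul_zero]
  · set A : Set T := {x | ψ x = 1} with hA
    have hAm : MeasurableSet A := measurableSet_eq_fun hψm measurable_const
    have hk : ∀ k, 1 ≤ k → k < p → μ {x | x + hh p 1 k ∈ A} = 0 ∨ μ (A ∩ {x | x + hh p 1 k ∈ A}) = 0 := by
      intro k hk1 hkp
      right
      have hmk : MeasurableSet {x | x + hh p 1 k ∈ A} := measurable_add_const _ hAm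
      have h1 := hψ (A.indicator 1) (measurable_one.indicator hAm)
      rw [lintegral_indicator_one hAm] at h1
      have h3 : ∀ y, ψ y * A.indicator (1 : T → ℝ≥0∞) y = A.indicator 1 y := by
        intro y
        by_cases hy : y ∈ A
        · rw [indicator_of_mem hy]
          have : ψ y = 1 := hy
          rw [this, one_mul]
        · rw [indicator_of_notMem hy, mul_zero]
      have h2 : ∫⁻ x, (A.indicator (1 : T → ℝ≥0∞) x + A.indicator 1 (x + hh p 1 k)) ∂μ ≤ μ A := by
        rw [← h1]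
        refine lintegral_mono fun x => ?_
        unfold fs
        simp_rw [h3]
        have h4 : ({0, k} : Finset ℕ) ⊆ Finset.range (p ^ 1) := by
          intro j hj
          rw [Finset.mem_insert, Finset.mem_singleton] at hj
          rw [pow_one, Finset.mem_range]
          omega
        refine le_trans (le_of_eq ?_) (Finset.sum_le_sum_of_subset h4)
        rw [Finset.sum_pair (by omega), hh_zero, add_zero]
      rw [lintegral_add_left (measurable_one.indicator hAm), lintegral_indicator_one hAm] at h2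
      have h5 : ∫⁻ x, A.indicator (1 : T → ℝ≥0∞) (x + hh p 1 k) ∂μ = 0 := by
        have h6 : μ A + ∫⁻ x, A.indicator (1 : T → ℝ≥0∞) (x + hh p 1 k) ∂μ ≤ μ A + 0 := by
          rw [add_zero]; exact h2
        have := (ENNReal.add_le_add_iff_left (measure_ne_top μ A)).1 h6
        exact le_antisymm this zero_le
      have h7 : (fun x => A.indicator (1 : T → ℝ≥0∞) (x + hh p 1 k)) =
          {x | x + hh p 1 k ∈ A}.indicator 1 := by
        ext x
        simp only [indicator, mem_ofPred_eq, Pi.one_apply]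
      rw [h7] at h5
      have h8 : μ {x | x + hh p 1 k ∈ A} = 0 := (lintegral_indicator_one hmk).symm.trans h5
      exact measure_mono_null inter_subset_right h8
    have hk' : ∀ k, 1 ≤ k → k < p → μ (A ∩ {x | x + hh p 1 k ∈ A}) = 0 := by
      intro k h1 h2
      rcases hk k h1 h2 with h | h
      · exact measure_mono_null inter_subset_right h
      · exact h
    refine ⟨A ∩ ⋂ k ∈ Finset.Ico 1 p, {x | x + hh p 1 k ∈ A}ᶜ, ?_, ?_, ?_⟩
    · exact hAm.inter (Finset.measurableSet_biInter _ fun k _ => (measurable_add_const _ hAm).compl)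
    · have hsub : (DD p ψ)ᶜ \ (A ∩ ⋂ k ∈ Finset.Ico 1 p, {x | x + hh p 1 k ∈ A}ᶜ) ⊆
          ((DD p ψ)ᶜ \ A) ∪ ⋃ k ∈ (Finset.Ico 1 p : Set ℕ), (A ∩ {x | x + hh p 1 k ∈ A}) := by
        rintro x ⟨hx1, hx2⟩
        by_cases hxA : x ∈ A
        · right
          by_contra hcon
          apply hx2
          refine ⟨hxA, ?_⟩
          rw [mem_iInter₂]
          intro k hk hc
          apply hcon
          rw [mem_iUnion₂]
          exact ⟨k, by exact_mod_cast hk, hxA, hc⟩
        · exact Or.inl ⟨hx1, hxA⟩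
      refine measure_mono_null hsub (measure_union_null ?_ ?_)
      · have h1 := DD_one hip hψm hψ1
        rw [ae_iff] at h1
        refine measure_mono_null ?_ h1
        rintro x ⟨hx1, hx2⟩
        simp only [mem_ofPred_eq]
        intro hc
        exact hx2 (hc hx1)
      · refine (measure_biUnion_null_iff (Finset.Ico 1 p).countable_toSet).2 fun k hkk => ?_
        rw [Finset.coe_Ico, mem_Ico] at hkk
        exact hk' k hkk.1 hkk.2
    · intro x hx k hk1 hkp hxk
      have h1 := hx.2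
      rw [mem_iInter₂] at h1
      exact h1 k (Finset.mem_Ico.2 ⟨hk1, hkp⟩) hxk.1

end Pool.Agent.W764.SH
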