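import Pool.Agent.W764.SH.Det
import Pool.Agent.W764.SH.Decomp
import Pool.Agent.W764.FB.Dev

/-!
Almost no point has convergent shell averages for an atomless invariant measure for which `×p` is
essentially injective.
-/

set_option autoImplicit false

open MeasureTheory Filter Topology Set
open scoped ENNReal

namespace Pool.Agent.W764.SH

open Pool.Agent.W764.FB
open Pool.Agent.H706R2.Ren (U measurableSet_U labels)

/-- the average of `f` over the multiples `n x`, `n` in the `k`-th shell -/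
noncomputable def avg {E : Type} [AddCommMonoid E] [Module ℝ E] (p q : ℕ) (ϑ : ℝ) (f : T → E)
    (k : ℕ) (x : T) : E :=
  ((shell p q ϑ k).card : ℝ)⁻¹ • ∑ n ∈ shell p q ϑ k, f (n • x)

/-- the shell averages of all characters converge at `x` -/
def Conv (p q : ℕ) (ϑ : ℝ) (x : T) : Prop :=
  ∀ m : ℤ, ∃ l : ℂ, Tendsto (fun k : ℕ => avg p q ϑ (fun y : T => fourier m y) k x) atTop (𝓝 l)

lemma avg_sub_le {p q : ℕ} {ϑ : ℝ} {f g : T → ℂ} {ε : ℝ} (hε : 0 ≤ ε) (h : ∀ x, ‖f x - g x‖ ≤ ε)
    (k : ℕ) (x : T) : ‖avg p q ϑ f k x - avg p q ϑ g k x‖ ≤ ε := by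
  unfold avg
  rw [← smul_sub, ← Finset.sum_sub_distrib, norm_smul]
  have h1 : ‖∑ n ∈ shell p q ϑ k, (f (n • x) - g (n • x))‖ ≤ (shell p q ϑ k).card * ε := by
    refine (norm_sum_le _ _).trans ((Finset.sum_le_card_nsmul _ _ ε fun n _ => h _).trans ?_)
    rw [nsmul_eq_mul]
  rcases Nat.eq_zero_or_pos (shell p q ϑ k).card with h0 | h0
  · rw [h0]; simpa using hε
  · have h2 : (0 : ℝ) < (shell p q ϑ k).card := by exact_mod_cast h0
    rw [norm_inv, Real.norm_of_nonneg h2.le, inv_mul_le_iff₀ h2]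
    exact h1

/-- convergence for all characters implies convergence for all continuous functions -/
lemma conv_cont {p q : ℕ} {ϑ : ℝ} {x : T} (h : Conv p q ϑ x) (F : C(T, ℂ)) :
    ∃ l : ℂ, Tendsto (fun k : ℕ => avg p q ϑ (fun y : T => F y) k x) atTop (𝓝 l) := by
  refine cauchySeq_tendsto_of_complete ?_
  rw [Metric.cauchySeq_iff]
  intro ε hε
  obtain ⟨M, c, hc⟩ := trig_approx F (ε := ε / 4) (by positivity)
  choose l hl using h
  have hP : ∀ k, avg p q ϑ (fun y : T => ∑ m ∈ M, c m * fourier m y) k x =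
      ∑ m ∈ M, c m * avg p q ϑ (fun y : T => fourier m y) k x := by
    intro k
    unfold avg
    rw [Finset.sum_comm, Finset.smul_sum]
    refine Finset.sum_congr rfl fun m _ => ?_
    rw [← Finset.mul_sum, mul_smul_comm]
  have hPl : Tendsto (fun k => avg p q ϑ (fun y : T => ∑ m ∈ M, c m * fourier m y) k x) atTop
      (𝓝 (∑ m ∈ M, c m * l m)) := by
    simp_rw [hP]
    exact tendsto_finsetSum _ fun m _ => (hl m).const_mul _
  obtain ⟨N, hN⟩ := (Metric.cauchySeq_iff.1 hPl.cauchySeq) (ε / 2) (by positivity)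
  refine ⟨N, fun i hi j hj => ?_⟩
  have h1 := avg_sub_le (p := p) (q := q) (ϑ := ϑ) (by positivity : (0 : ℝ) ≤ ε / 4) hc i x
  have h2 := avg_sub_le (p := p) (q := q) (ϑ := ϑ) (by positivity : (0 : ℝ) ≤ ε / 4) hc j x
  have h3 := hN i hi j hj
  rw [dist_eq_norm] at h3 ⊢
  set a := avg p q ϑ (fun y : T => F y) i x
  set b := avg p q ϑ (fun y : T => F y) j x
  set a' := avg p q ϑ (fun y : T => ∑ m ∈ M, c m * fourier m y) i x
  set b' := avg p q ϑ (fun y : T => ∑ m ∈ M, c m * fourier m y) j x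
  have e : a - b = (a - a') + (a' - b') - (b - b') := by ring
  have h4 : ‖a - b‖ ≤ ‖a - a'‖ + ‖a' - b'‖ + ‖b - b'‖ := by
    rw [e]
    exact (norm_sub_le _ _).trans (add_le_add_left (norm_add_le _ _) _)
  linarith

/-- a measurable set of points with mutual distances bounded below is finite -/
lemma countable_of_sep {E : Set T} {τ : ℝ} (hτ : 0 < τ)
    (h : ∀ x ∈ E, ∀ y ∈ E, ‖x - y‖ < τ → x = y) : E.Countable := by
  obtain ⟨Q, lab, hlab⟩ := labels (ε := τ / 2) (by positivity)
  have hinj : Set.InjOn lab E := by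
    intro x hx y hy hxy
    exact h x hx y hy ((hlab x y hxy).trans_lt (by linarith))
  exact (Set.Finite.of_finite_image (Set.toFinite (lab '' E)) hinj).countable

open Classical in
/-- points whose shell averages of the bump function are eventually small are countably many -/
lemma small_countable {p q : ℕ} (hp : 2 ≤ p) (hq : 2 ≤ q) {ϑ : ℝ} (hϑ : 1 < ϑ)
    (hirr : Irrational (Real.log p / Real.log q)) :
    ∃ c0 : ℝ, 0 < c0 ∧ ∀ (K : ℕ) (cen : Fin K → T) (ρ : ℝ), 1 ≤ K → 0 < ρ → ρ * (K : ℝ) ^ 2 ≤ c0 →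
      ∀ k0 : ℕ, {x : T | ∀ k, k0 ≤ k → avg p q ϑ (bump cen ρ) k x < 1 / 4}.Countable := by
  obtain ⟨c0, hc0, h⟩ := det hp hq hϑ hirr
  refine ⟨c0 / 2, by positivity, fun K cen ρ hK hρ hρK k0 => ?_⟩
  set cen' : Fin (K * K) → T := fun w => cen (finProdFinEquiv.symm w).1 -
    cen (finProdFinEquiv.symm w).2 with hcen'
  obtain ⟨τ0, hτ0, hτ⟩ := h (K * K) cen' (2 * ρ) (Nat.mul_pos hK hK) (by positivity) (by
    push_cast; nlinarith) k0
  refine countable_of_sep hτ0 fun x hx y hy hxy => ?_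
  by_contra hne
  obtain ⟨k, hk, hk1, hk2⟩ := hτ (x - y) (sub_ne_zero.2 hne) hxy
  set S := shell p q ϑ k with hS
  have hSR : (0 : ℝ) < S.card := by exact_mod_cast hk2
  have key : ∀ z, avg p q ϑ (bump cen ρ) k z < 1 / 4 →
      4 * (S.filter fun n => n • z ∉ U cen ρ).card < S.card := by
    intro z hz
    have h1 : ((S.filter fun n => n • z ∉ U cen ρ).card : ℝ) ≤ ∑ n ∈ S, bump cen ρ (n • z) := by
      rw [Finset.card_filter]
      push_cast
      refine Finset.sum_le_sum fun n _ => ?_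
      split_ifs with hn
      · exact bump_nonneg _ _ _
      · rw [bump_out hK cen hρ hn]
    unfold avg at hz
    rw [← hS, smul_eq_mul, inv_mul_lt_iff₀ hSR] at hz
    have h2 : 4 * ((S.filter fun n => n • z ∉ U cen ρ).card : ℝ) < S.card := by linarith
    exact_mod_cast h2
  have hx1 := key x (hx k hk)
  have hy1 := key y (hy k hk)
  have hsub : S ⊆ (S.filter fun n => n • x ∉ U cen ρ) ∪ ((S.filter fun n => n • y ∉ U cen ρ) ∪
      (S.filter fun n => n • (x - y) ∈ U cen' (2 * ρ))) := by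
    intro n hn
    rw [Finset.mem_union, Finset.mem_union, Finset.mem_filter, Finset.mem_filter,
      Finset.mem_filter]
    by_cases h1 : n • x ∈ U cen ρ
    · by_cases h2 : n • y ∈ U cen ρ
      · right; right
        refine ⟨hn, ?_⟩
        unfold U at h1 h2 ⊢
        obtain ⟨i, hi⟩ := mem_iUnion.1 h1
        obtain ⟨j, hj⟩ := mem_iUnion.1 h2
        refine mem_iUnion.2 ⟨finProdFinEquiv (i, j), ?_⟩
        rw [Metric.mem_closedBall, dist_eq_norm] at hi hj ⊢
        simp only [hcen', Equiv.symm_apply_apply]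
        have e : n • (x - y) - (cen i - cen j) = (n • x - cen i) - (n • y - cen j) := by
          rw [smul_sub]; abel
        rw [e]
        exact (norm_sub_le _ _).trans (by linarith)
      · right; left; exact ⟨hn, h2⟩
    · left; exact ⟨hn, h1⟩
  have h3 := Finset.card_le_card hsub
  have h4 := Finset.card_union_le (S.filter fun n => n • x ∉ U cen ρ)
    ((S.filter fun n => n • y ∉ U cen ρ) ∪ (S.filter fun n => n • (x - y) ∈ U cen' (2 * ρ)))
  have h5 := Finset.card_union_le (S.filter fun n => n • y ∉ U cen ρ)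
    (S.filter fun n => n • (x - y) ∈ U cen' (2 * ρ))
  omega

lemma integral_avg_bump {p q : ℕ} {ϑ : ℝ} {ν : Measure T} [IsProbabilityMeasure ν]
    (hip : MeasurePreserving (fun x : T => p • x) ν ν)
    (hiq : MeasurePreserving (fun x : T => q • x) ν ν) {f : T → ℝ} (hf : Continuous f)
    (hf0 : ∀ x, 0 ≤ f x) (k : ℕ) : ∫ x, avg p q ϑ f k x ∂ν ≤ ∫ x, f x ∂ν := by
  unfold avg
  have hint : ∀ n ∈ shell p q ϑ k, Integrable (fun x => f (n • x)) ν := fun n _ =>
    Pool.Agent.H847R3.XpXq.integrable_of_cont (hf.comp (continuous_nsmul _)) _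
  have h1 : ∀ n ∈ shell p q ϑ k, ∫ x, f (n • x) ∂ν = ∫ x, f x ∂ν := by
    intro n hn
    obtain ⟨⟨a, b, rfl⟩, -⟩ := mem_shell.1 hn
    have h := Pool.Agent.H847R3.XpXq.mp_S hip hiq a b
    have h1 := integral_map (μ := ν) h.measurable.aemeasurable
      (f := fun x : T => f x) hf.aestronglyMeasurable
    rw [h.map_eq] at h1
    exact h1.symm
  simp_rw [smul_eq_mul]
  rw [integral_const_mul, integral_finsetSum _ hint, Finset.sum_congr rfl h1, Finset.sum_const,
    nsmul_eq_mul]
  have h0 : 0 ≤ ∫ x, f x ∂ν := integral_nonneg hf0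
  rcases Nat.eq_zero_or_pos (shell p q ϑ k).card with h2 | h2
  · rw [h2]; simpa using h0
  · have h3 : (0 : ℝ) < (shell p q ϑ k).card := by exact_mod_cast h2
    rw [← mul_assoc, inv_mul_cancel₀ h3.ne', one_mul]

/-- **Divergence of the shell averages.** -/
theorem null_conv {p q : ℕ} (hp : 2 ≤ p) (hq : 2 ≤ q) {ϑ : ℝ} (hϑ : 1 < ϑ)
    (hirr : Irrational (Real.log p / Real.log q)) (ν : Measure T) [IsProbabilityMeasure ν]
    (hna : ∀ x, ν {x} = 0) (hip : MeasurePreserving (fun x : T => p • x) ν ν)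
    (hiq : MeasurePreserving (fun x : T => q • x) ν ν) (hinj : EssInj p ν) :
    ν {x | Conv p q ϑ x} = 0 := by
  obtain ⟨c0, hc0, hcount⟩ := small_countable hp hq hϑ hirr
  have key : ∀ κ : ℝ, 0 < κ → ν {x | Conv p q ϑ x} ≤ ENNReal.ofReal (5 * κ) := by
    intro κ hκ
    obtain ⟨K, cen, ρ, hK, hρ, hρK, hU⟩ := covering hp ν hip hinj hκ (c := c0 / 2) (by positivity)
    have hρ2 : 2 * ρ * (K : ℝ) ^ 2 ≤ c0 := by nlinarith
    set f : T → ℝ := bump cen (2 * ρ) with hf
    have hfc : Continuous f := continuous_bump _ _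
    have hf0 : ∀ x, 0 ≤ f x := bump_nonneg _ _
    have hfi : ∫ x, f x ∂ν ≤ κ := by
      have h1 : ∀ x, f x ≤ (U cen ρ)ᶜ.indicator (fun _ => (1 : ℝ)) x := by
        intro x
        by_cases hx : x ∈ U cen ρ
        · have h2 : f x = 0 := bump_in cen (by positivity) (by
            rw [mul_div_cancel_left₀ _ (by norm_num : (2 : ℝ) ≠ 0)]; exact hx)
          rw [h2]
          exact indicator_nonneg (fun _ _ => zero_le_one) _
        · rw [indicator_of_mem (by exact hx)]
          exact bump_le_one _ _ _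
      have hUm : MeasurableSet (U cen ρ)ᶜ := (measurableSet_U cen ρ).compl
      calc ∫ x, f x ∂ν ≤ ∫ x, (U cen ρ)ᶜ.indicator (fun _ => (1 : ℝ)) x ∂ν :=
            integral_mono (Pool.Agent.H847R3.XpXq.integrable_of_cont hfc ν)
              ((integrable_const 1).indicator hUm) h1
        _ = ν.real (U cen ρ)ᶜ := by
            rw [integral_indicator hUm, setIntegral_const, smul_eq_mul, mul_one]
        _ ≤ κ := hU
    -- the two alternatives
    set A : Set T := ⋃ k0 : ℕ, {x : T | ∀ k, k0 ≤ k → avg p q ϑ f k x < 1 / 4} with hA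
    set B : ℕ → Set T := fun k0 => {x : T | ∀ k, k0 ≤ k → 1 / 5 ≤ avg p q ϑ f k x} with hB
    have hA0 : ν A = 0 := by
      have hAc : A.Countable := countable_iUnion fun k0 =>
        hcount K cen (2 * ρ) hK (by positivity) hρ2 k0
      have : NullSingletonClass ν := ⟨hna⟩
      exact hAc.measure_zero ν
    have hBm : ∀ k0, ν (B k0) ≤ ENNReal.ofReal (5 * κ) := by
      intro k0
      have h1 : B k0 ⊆ {x | 1 / 5 ≤ avg p q ϑ f k0 x} := fun x hx => hx k0 le_rfl
      have hci : Continuous fun x => avg p q ϑ f k0 x := by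
        unfold avg
        simp_rw [smul_eq_mul]
        exact continuous_const.mul
          (continuous_finsetSum _ fun n _ => hfc.comp (continuous_nsmul _))
      have h2 := mul_meas_ge_le_integral_of_nonneg (μ := ν) (f := fun x => avg p q ϑ f k0 x)
        (Eventually.of_forall fun x => by
          show 0 ≤ avg p q ϑ f k0 x
          unfold avg
          exact smul_nonneg (by positivity) (Finset.sum_nonneg fun n _ => hf0 _))
        (Pool.Agent.H847R3.XpXq.integrable_of_cont hci ν) (1 / 5)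
      have h3 := integral_avg_bump (ϑ := ϑ) hip hiq hfc hf0 k0
      have h4 : ν.real {x | 1 / 5 ≤ avg p q ϑ f k0 x} ≤ 5 * κ := by linarith
      refine (measure_mono h1).trans ?_
      rw [← ENNReal.ofReal_toReal (measure_ne_top ν {x | 1 / 5 ≤ avg p q ϑ f k0 x})]
      exact ENNReal.ofReal_le_ofReal h4
    have hBmono : Monotone B := by
      intro a b hab x hx k hk
      exact hx k (hab.trans hk)
    have hsub : {x | Conv p q ϑ x} ⊆ A ∪ ⋃ k0, B k0 := by
      intro x hx
      obtain ⟨l, hl⟩ := conv_cont hx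
        (⟨fun y => ((f y : ℝ) : ℂ), Complex.continuous_ofReal.comp hfc⟩ : C(T, ℂ))
      have hre : Tendsto (fun k => avg p q ϑ f k x) atTop (𝓝 l.re) := by
        have h1 := (Complex.continuous_re.tendsto l).comp hl
        refine h1.congr fun k => ?_
        show (avg p q ϑ (fun y => ((f y : ℝ) : ℂ)) k x).re = avg p q ϑ f k x
        unfold avg
        rw [Complex.smul_re, Complex.re_sum]
        simp only [Complex.ofReal_re, smul_eq_mul]
      rcases lt_or_ge l.re (1 / 4) with h1 | h1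
      · left
        obtain ⟨k0, hk0⟩ := eventually_atTop.1 (hre.eventually (gt_mem_nhds h1))
        exact mem_iUnion.2 ⟨k0, hk0⟩
      · right
        obtain ⟨k0, hk0⟩ := eventually_atTop.1 (hre.eventually (lt_mem_nhds
          (show 1 / 5 < l.re by linarith)))
        exact mem_iUnion.2 ⟨k0, fun k hk => (hk0 k hk).le⟩
    calc ν {x | Conv p q ϑ x} ≤ ν (A ∪ ⋃ k0, B k0) := measure_mono hsub
      _ ≤ ν A + ν (⋃ k0, B k0) := measure_union_le _ _
      _ = ⨆ k0, ν (B k0) := by rw [hA0, zero_add, hBmono.measure_iUnion]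
      _ ≤ ENNReal.ofReal (5 * κ) := iSup_le hBm
  have hlim : Tendsto (fun κ : ℝ => ENNReal.ofReal (5 * κ)) (𝓝[>] 0) (𝓝 0) := by
    have h1 : Tendsto (fun κ : ℝ => ENNReal.ofReal (5 * κ)) (𝓝 0) (𝓝 (ENNReal.ofReal (5 * 0))) :=
      (ENNReal.continuous_ofReal.comp (continuous_const_mul 5)).tendsto 0
    rw [mul_zero, ENNReal.ofReal_zero] at h1
    exact h1.mono_left nhdsWithin_le_nhds
  refine le_antisymm (ge_of_tendsto hlim ?_) zero_le
  filter_upwards [self_mem_nhdsWithin] with κ hκ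
  exact key κ hκ

end Pool.Agent.W764.SH
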