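import Pool.Agent.W764.SH.Count

/-!
Comparison of the numbers of points of slabs.
-/

set_option autoImplicit false

open Filter Topology

namespace Pool.Agent.W764.SH

/-- A thin slab contains at most about `1 / J` of the points of a nearby slab of width `L`. -/
theorem compare {α β : ℝ} (hα : 0 < α) (hβ : 0 < β) (h : Irrational (α / β)) {L R : ℝ}
    (hL : 0 < L) {J : ℕ} (hJ : 1 ≤ J) :
    ∃ M : ℕ, ∀ x y : ℝ, |y - x| ≤ R → J * cnt α β x (L / (2 * J)) ≤ cnt α β y L + M := by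
  have hJR : (0 : ℝ) < J := by exact_mod_cast hJ
  set δ : ℝ := L / (2 * J) with hδ
  have hδ0 : 0 < δ := by positivity
  have hδL : 2 * δ * J = L := by rw [hδ]; field_simp
  obtain ⟨M0, hM0⟩ := transl hβ h (R + L) hδ0
  obtain ⟨B, hB⟩ := near_axes hα hβ M0 δ
  refine ⟨J * B, fun x y hxy => ?_⟩
  set P : Set (ℕ × ℕ) := {u ∈ slab α β x δ | ¬ (u.1 < M0 ∨ u.2 < M0)} with hP
  have hsplit : cnt α β x δ ≤ P.ncard + B := by
    have h1 : slab α β x δ ⊆ P ∪ {u ∈ slab α β x δ | u.1 < M0 ∨ u.2 < M0} := by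
      intro u hu
      by_cases hc : u.1 < M0 ∨ u.2 < M0
      · exact Or.inr ⟨hu, hc⟩
      · exact Or.inl ⟨hu, hc⟩
    have hf := slab_finite hα hβ x δ
    refine (Set.ncard_le_ncard h1 ((hf.subset fun u hu => hu.1).union
      (hf.subset fun u hu => hu.1))).trans ?_
    exact (Set.ncard_union_le _ _).trans (Nat.add_le_add_left (hB x) _)
  have hs : ∀ j : ℕ, j < J → |y + 2 * δ * j - x| ≤ R + L := by
    intro j hj
    have h1 : |y + 2 * δ * j - x| ≤ |y - x| + |2 * δ * j| := by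
      have e : y + 2 * δ * j - x = (y - x) + 2 * δ * j := by ring
      rw [e]; exact abs_add_le _ _
    have h2 : |2 * δ * (j : ℝ)| ≤ L := by
      rw [abs_of_nonneg (by positivity), ← hδL]
      have : (j : ℝ) ≤ J := by exact_mod_cast hj.le
      gcongr
    linarith
  have hch : ∀ j : ℕ, ∃ u v : ℤ, j < J → (y + 2 * δ * j - x ≤ u * α + v * β ∧
      u * α + v * β < y + 2 * δ * j - x + δ ∧ u.natAbs ≤ M0 ∧ v.natAbs ≤ M0) := by
    intro j
    by_cases hj : j < J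
    · obtain ⟨u, v, h1⟩ := hM0 _ (hs j hj)
      exact ⟨u, v, fun _ => h1⟩
    · exact ⟨0, 0, fun h => absurd h hj⟩
  choose u v huv using hch
  set f : ℕ × (ℕ × ℕ) → ℕ × ℕ := fun w =>
    (((w.2.1 : ℤ) + u w.1).toNat, ((w.2.2 : ℤ) + v w.1).toNat) with hf
  set Q : Set (ℕ × (ℕ × ℕ)) := (Finset.range J : Set ℕ) ×ˢ P with hQ
  have hval : ∀ w ∈ Q, (((f w).1 : ℕ) : ℤ) = (w.2.1 : ℤ) + u w.1 ∧
      (((f w).2 : ℕ) : ℤ) = (w.2.2 : ℤ) + v w.1 := by
    rintro ⟨j, a, b⟩ ⟨hj, ⟨-, hab⟩⟩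
    rw [Finset.coe_range, Set.mem_Iio] at hj
    obtain ⟨-, -, h3, h4⟩ := huv j hj
    simp only at hab hj
    push Not at hab
    simp only [hf]
    constructor
    · rw [Int.toNat_of_nonneg]; omega
    · rw [Int.toNat_of_nonneg]; omega
  have hmem : ∀ w ∈ Q, y + 2 * δ * w.1 ≤ (f w).1 * α + (f w).2 * β ∧
      (f w).1 * α + (f w).2 * β < y + 2 * δ * w.1 + 2 * δ := by
    intro w hw
    obtain ⟨e1, e2⟩ := hval w hw
    have e1' : (((f w).1 : ℕ) : ℝ) = (w.2.1 : ℝ) + u w.1 := by exact_mod_cast e1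
    have e2' : (((f w).2 : ℕ) : ℝ) = (w.2.2 : ℝ) + v w.1 := by exact_mod_cast e2
    rw [e1', e2']
    obtain ⟨hj, ⟨⟨h5, h6⟩, -⟩⟩ := hw
    rw [Finset.coe_range, Set.mem_Iio] at hj
    obtain ⟨h1, h2, -, -⟩ := huv w.1 hj
    constructor
    · nlinarith
    · nlinarith
  have hle : Q.ncard ≤ cnt α β y L := by
    refine Set.ncard_le_ncard_of_injOn f ?_ ?_ (slab_finite hα hβ y L)
    · intro w hw
      obtain ⟨h1, h2⟩ := hmem w hw
      have hj : w.1 < J := by
        have := hw.1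
        rwa [Finset.coe_range, Set.mem_Iio] at this
      have hjR : (w.1 : ℝ) + 1 ≤ J := by exact_mod_cast hj
      refine ⟨?_, ?_⟩
      · have : 0 ≤ 2 * δ * (w.1 : ℝ) := by positivity
        linarith
      · have : 2 * δ * ((w.1 : ℝ) + 1) ≤ 2 * δ * J := by gcongr
        linarith
    · intro w hw w' hw' hff
      obtain ⟨h1, h2⟩ := hmem w hw
      obtain ⟨h3, h4⟩ := hmem w' hw'
      rw [hff] at h1 h2
      have hj : w.1 = w'.1 := by
        by_contra hne
        rcases lt_or_gt_of_ne hne with hlt | hlt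
        · have h5 : (w.1 : ℝ) + 1 ≤ w'.1 := by exact_mod_cast hlt
          have : 2 * δ * ((w.1 : ℝ) + 1) ≤ 2 * δ * w'.1 := by gcongr
          linarith
        · have h5 : (w'.1 : ℝ) + 1 ≤ w.1 := by exact_mod_cast hlt
          have : 2 * δ * ((w'.1 : ℝ) + 1) ≤ 2 * δ * w.1 := by gcongr
          linarith
      obtain ⟨e1, e2⟩ := hval w hw
      obtain ⟨e3, e4⟩ := hval w' hw'
      rw [hff, hj] at e1 e2
      have h5 : w.2.1 = w'.2.1 := by omega
      have h6 : w.2.2 = w'.2.2 := by omega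
      exact Prod.ext hj (Prod.ext h5 h6)
  have hQc : Q.ncard = J * P.ncard := by
    rw [hQ, Set.ncard_prod, Set.ncard_coe_finset, Finset.card_range]
  calc J * cnt α β x δ ≤ J * (P.ncard + B) := Nat.mul_le_mul_left _ hsplit
    _ = Q.ncard + J * B := by rw [hQc]; ring
    _ ≤ cnt α β y L + J * B := Nat.add_le_add_right hle _

lemma cover_slab {α β : ℝ} (hα : 0 < α) (hβ : 0 < β) (y : ℝ) {D δ : ℝ} (hδ : 0 < δ) (r : ℕ)
    (h : D ≤ r * δ) : cnt α β y D ≤ ∑ i ∈ Finset.range r, cnt α β (y + i * δ) δ := by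
  have h1 : slab α β y D ⊆ ⋃ i ∈ Finset.range r, slab α β (y + i * δ) δ := by
    rintro ⟨a, b⟩ ⟨h2, h3⟩
    simp only at h2 h3
    set w : ℝ := a * α + b * β - y with hw
    have hw0 : 0 ≤ w := by linarith
    have hwr : w < r * δ := by linarith
    have h4 : w / δ < r := by rwa [div_lt_iff₀ hδ]
    have h5 : (⌊w / δ⌋₊ : ℝ) ≤ w / δ := Nat.floor_le (by positivity)
    have h6 : w / δ < ⌊w / δ⌋₊ + 1 := Nat.lt_floor_add_one _
    have h7 : ⌊w / δ⌋₊ < r := by
      have : (⌊w / δ⌋₊ : ℝ) < r := h5.trans_lt h4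
      exact_mod_cast this
    rw [le_div_iff₀ hδ] at h5
    rw [div_lt_iff₀ hδ] at h6
    simp only [Set.mem_iUnion]
    refine ⟨⌊w / δ⌋₊, Finset.mem_range.2 h7, ?_, ?_⟩
    · show y + (⌊w / δ⌋₊ : ℝ) * δ ≤ a * α + b * β
      linarith
    · show a * α + b * β < y + (⌊w / δ⌋₊ : ℝ) * δ + δ
      linarith
  refine (Set.ncard_le_ncard h1 ?_).trans (Finset.set_ncard_biUnion_le _ _)
  exact (Finset.range r).finite_toSet.biUnion fun i _ => slab_finite hα hβ _ _

/-- linear growth -/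
theorem growth {α β : ℝ} (hα : 0 < α) (hβ : 0 < β) (h : Irrational (α / β)) {L : ℝ}
    (hL : 0 < L) : ∃ (c : ℝ) (M : ℝ), 0 < c ∧ ∀ y : ℝ, 0 ≤ y → c * y - M ≤ cnt α β y L := by
  set δ : ℝ := L / 2 with hδ
  have hδ0 : 0 < δ := by positivity
  set r : ℕ := ⌈α / δ⌉₊ with hr
  have hr1 : 1 ≤ r := Nat.one_le_iff_ne_zero.2 (Nat.ceil_pos.2 (by positivity)).ne'
  have hrR : (0 : ℝ) < r := by exact_mod_cast hr1
  have hαr : α ≤ r * δ := by
    have := Nat.le_ceil (α / δ)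
    rwa [div_le_iff₀ hδ0] at this
  obtain ⟨M, hM⟩ := compare hα hβ h (R := r * δ) hL (J := 1) le_rfl
  refine ⟨1 / (β * r), M, by positivity, fun y hy => ?_⟩
  have h1 : ⌊y / β⌋₊ + 1 ≤ cnt α β y α := by
    have h2 : ((Finset.range (⌊y / β⌋₊ + 1) : Finset ℕ) : Set ℕ).ncard = ⌊y / β⌋₊ + 1 := by
      rw [Set.ncard_coe_finset, Finset.card_range]
    rw [← h2]
    refine Set.ncard_le_ncard_of_injOn (fun b => (⌈(y - b * β) / α⌉₊, b)) ?_ ?_
      (slab_finite hα hβ y α)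
    · intro b hb
      rw [Finset.coe_range, Set.mem_Iio] at hb
      have hb1 : (b : ℝ) ≤ y / β := by
        have : (b : ℝ) ≤ ⌊y / β⌋₊ := by exact_mod_cast (by omega : b ≤ ⌊y / β⌋₊)
        exact this.trans (Nat.floor_le (by positivity))
      rw [le_div_iff₀ hβ] at hb1
      have h3 : 0 ≤ (y - b * β) / α := div_nonneg (by linarith) hα.le
      have h4 := Nat.le_ceil ((y - b * β) / α)
      have h5 := Nat.ceil_lt_add_one h3
      rw [div_le_iff₀ hα] at h4
      have h6 : (⌈(y - b * β) / α⌉₊ : ℝ) * α < ((y - b * β) / α + 1) * α := by gcongr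
      have e : ((y - b * β) / α + 1) * α = y - b * β + α := by field_simp
      exact ⟨by show y ≤ (⌈(y - b * β) / α⌉₊ : ℝ) * α + b * β; linarith,
        by show (⌈(y - b * β) / α⌉₊ : ℝ) * α + b * β < y + α; linarith⟩
    · intro b _ b' _ hbb
      exact (Prod.ext_iff.1 hbb).2
  have h2 := cover_slab hα hβ y hδ0 r hαr
  have h3 : ∑ i ∈ Finset.range r, cnt α β (y + i * δ) δ ≤ r * (cnt α β y L + M) := by
    refine (Finset.sum_le_card_nsmul _ _ (cnt α β y L + M) fun i hi => ?_).trans ?_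
    · rw [Finset.mem_range] at hi
      have h4 := hM (y + i * δ) y (by
        have e : y - (y + i * δ) = -(i * δ) := by ring
        rw [e, abs_neg, abs_of_nonneg (by positivity)]
        have : (i : ℝ) ≤ r := by exact_mod_cast hi.le
        gcongr)
      rw [one_mul, Nat.cast_one, mul_one, ← hδ] at h4
      exact h4
    · rw [Finset.card_range, smul_eq_mul]
  have h4 : y / β ≤ r * ((cnt α β y L : ℝ) + M) := by
    have h5 : y / β < ⌊y / β⌋₊ + 1 := Nat.lt_floor_add_one _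
    have h6 : ((⌊y / β⌋₊ + 1 : ℕ) : ℝ) ≤ ((r * (cnt α β y L + M) : ℕ) : ℝ) := by
      exact_mod_cast h1.trans (h2.trans h3)
    push_cast at h6
    linarith
  have h5 : 1 / (β * r) * y = y / β / r := by field_simp
  rw [h5]
  have h6 : y / β / r ≤ (cnt α β y L : ℝ) + M := by
    rw [div_le_iff₀ hrR]; linarith
  linarith

end Pool.Agent.W764.SH
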