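import Pool.Agent.W764.FB.Cover

/-!
Orders of `q` modulo divisors of powers of `p`, for coprime `p`, `q`.
-/

set_option autoImplicit false

namespace Pool.Agent.W764.SH

open Finset

/-- divisibility form of the bound for the order of `q` modulo `p ^ r` -/
theorem ord_dvd (p q : ℕ) (hp : p.Prime) (hq : 2 ≤ q) (hpq : ¬ p ∣ q) :
    ∃ C : ℕ, 1 ≤ C ∧ ∀ d r : ℕ, 1 ≤ d → p ^ r ∣ q ^ d - 1 → p ^ r ∣ C * d := by
  have : Fact p.Prime := ⟨hp⟩
  rcases hp.eq_two_or_odd' with h2 | hodd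
  · subst h2
    have hq3 : 3 ≤ q := by
      rcases Nat.lt_or_ge q 3 with h | h
      · exfalso; apply hpq; interval_cases q; exact ⟨1, rfl⟩
      · exact h
    refine ⟨(q + 1) * (q - 1), Nat.mul_pos (by omega) (by omega), ?_⟩
    intro d r hd hdvd
    have hdvd2 : 2 ^ r ∣ q ^ (2 * d) - 1 := by
      refine hdvd.trans ?_
      have := Nat.sub_dvd_pow_sub_pow (q ^ d) 1 2
      rw [one_pow, ← pow_mul, mul_comm d 2] at this
      exact this
    have hqo : ¬ 2 ∣ q := hpq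
    have hlte := padicValNat.pow_two_sub_pow (x := q) (y := 1) (n := 2 * d) (by omega)
      (by omega) hqo (by omega) (even_two_mul d)
    rw [one_pow] at hlte
    have hne : q ^ (2 * d) - 1 ≠ 0 := by
      have : 1 < q ^ (2 * d) := Nat.one_lt_pow (by omega) (by omega)
      omega
    have hr : r ≤ padicValNat 2 (q ^ (2 * d) - 1) :=
      (padicValNat_dvd_iff_le hne).1 hdvd2
    have hv2d : padicValNat 2 (2 * d) = 1 + padicValNat 2 d := by
      rw [padicValNat.mul (by norm_num) (by omega), padicValNat.self (by norm_num)]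
    have hr' : r ≤ padicValNat 2 (q + 1) + padicValNat 2 (q - 1) + padicValNat 2 d := by omega
    calc 2 ^ r ∣ 2 ^ (padicValNat 2 (q + 1) + padicValNat 2 (q - 1) + padicValNat 2 d) :=
          pow_dvd_pow _ hr'
      _ = 2 ^ padicValNat 2 (q + 1) * 2 ^ padicValNat 2 (q - 1) * 2 ^ padicValNat 2 d := by
          rw [pow_add, pow_add]
      _ ∣ (q + 1) * (q - 1) * d :=
          mul_dvd_mul (mul_dvd_mul pow_padicValNat_dvd pow_padicValNat_dvd) pow_padicValNat_dvd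
  · have hcop : Nat.Coprime q p := ((Nat.Prime.coprime_iff_not_dvd hp).2 hpq).symm
    have hp1 : p ∣ q ^ (p - 1) - 1 := by
      have h := Nat.ModEq.pow_totient hcop
      rw [Nat.totient_prime hp] at h
      exact (Nat.modEq_iff_dvd' (Nat.one_le_pow _ _ (by omega))).1 h.symm
    have hp2 : 2 ≤ p := hp.two_le
    have ha : 1 < q ^ (p - 1) := Nat.one_lt_pow (by omega) (by omega)
    refine ⟨q ^ (p - 1) - 1, by omega, ?_⟩
    intro d r hd hdvd
    have hdvd2 : p ^ r ∣ (q ^ (p - 1)) ^ d - 1 := by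
      refine hdvd.trans ?_
      have := Nat.sub_dvd_pow_sub_pow (q ^ d) 1 (p - 1)
      rw [one_pow, ← pow_mul, mul_comm d (p - 1), pow_mul] at this
      exact this
    have hnd : ¬ p ∣ q ^ (p - 1) := fun h => hpq (hp.dvd_of_dvd_pow h)
    have hlte := padicValNat.pow_sub_pow (x := q ^ (p - 1)) (y := 1) (n := d) hodd ha hp1 hnd
      (by omega)
    rw [one_pow] at hlte
    have hne : (q ^ (p - 1)) ^ d - 1 ≠ 0 := by
      have : 1 < (q ^ (p - 1)) ^ d := Nat.one_lt_pow (by omega) ha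
      omega
    have hr : r ≤ padicValNat p ((q ^ (p - 1)) ^ d - 1) := (padicValNat_dvd_iff_le hne).1 hdvd2
    rw [hlte] at hr
    calc p ^ r ∣ p ^ (padicValNat p (q ^ (p - 1) - 1) + padicValNat p d) :=
          pow_dvd_pow _ hr
      _ = p ^ padicValNat p (q ^ (p - 1) - 1) * p ^ padicValNat p d := by rw [pow_add]
      _ ∣ (q ^ (p - 1) - 1) * d := mul_dvd_mul pow_padicValNat_dvd pow_padicValNat_dvd

/-- The order of `q` modulo a divisor `s` of a power of `p` is at least proportional to `s`. -/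
theorem ord_cop (p q : ℕ) (hp : 2 ≤ p) (hq : 2 ≤ q) (hpq : Nat.Coprime p q) :
    ∃ C : ℕ, 1 ≤ C ∧ ∀ d r s : ℕ, 1 ≤ d → s ∣ p ^ r → s ∣ q ^ d - 1 → s ≤ C * d := by
  have hl : ∀ l ∈ p.primeFactors, ∃ C : ℕ, 1 ≤ C ∧ ∀ d r : ℕ, 1 ≤ d → l ^ r ∣ q ^ d - 1 →
      l ^ r ∣ C * d := by
    intro l hl
    have hlp := Nat.prime_of_mem_primeFactors hl
    refine ord_dvd l q hlp hq fun h => ?_
    have h1 : l ∣ Nat.gcd p q := Nat.dvd_gcd (Nat.dvd_of_mem_primeFactors hl) h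
    rw [hpq] at h1
    exact hlp.one_lt.ne' (Nat.dvd_one.1 h1)
  choose! F hF1 hF using hl
  refine ⟨∏ l ∈ p.primeFactors, F l, ?_, ?_⟩
  · exact Nat.one_le_iff_ne_zero.2 (Finset.prod_ne_zero_iff.2 fun l hl =>
      Nat.one_le_iff_ne_zero.1 (hF1 l hl))
  · intro d r s hd hs1 hs2
    have hpos : 0 < (∏ l ∈ p.primeFactors, F l) * d := by
      refine Nat.mul_pos (Nat.pos_of_ne_zero (Finset.prod_ne_zero_iff.2 fun l hl => ?_)) hd
      exact Nat.one_le_iff_ne_zero.1 (hF1 l hl)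
    refine Nat.le_of_dvd hpos ?_
    rw [Nat.dvd_iff_prime_pow_dvd_dvd]
    intro l k hlp hk
    rcases Nat.eq_zero_or_pos k with h0 | h0
    · rw [h0, pow_zero]; exact one_dvd _
    have hlp' : l ∣ p := by
      refine hlp.dvd_of_dvd_pow (n := r) ?_
      exact ((dvd_pow_self l h0.ne').trans hk).trans hs1
    have hmem : l ∈ p.primeFactors := Nat.mem_primeFactors.2 ⟨hlp, hlp', by omega⟩
    have h1 := hF l hmem d k hd (hk.trans hs2)
    exact h1.trans (mul_dvd_mul (Finset.dvd_prod_of_mem F hmem) (dvd_refl d))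

open Pool.Agent.W764.FB

/-- the frequencies are distinct modulo `p ^ n` -/
lemma distinct_cop {p q : ℕ} (hq : 2 ≤ q) (hpq : Nat.Coprime p q) {C : ℕ}
    (hC : ∀ d r s : ℕ, 1 ≤ d → s ∣ p ^ r → s ∣ q ^ d - 1 → s ≤ C * d) {m : ℤ} (hm : m ≠ 0)
    {n N : ℕ} (hN : C * N * m.natAbs ≤ p ^ n) (hC1 : 1 ≤ C) :
    ∀ i < N, ∀ j < N, i ≠ j → ¬ ((p : ℤ) ^ n) ∣ (m * (q ^ i : ℕ) - m * (q ^ j : ℕ)) := by
  have main : ∀ i < N, ∀ j < N, i < j → ¬ ((p : ℤ) ^ n) ∣ (m * (q ^ j : ℕ) - m * (q ^ i : ℕ)) := by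
    intro i hi j hj hij hd
    have h1 : m * (q ^ j : ℕ) - m * (q ^ i : ℕ) =
        (q : ℤ) ^ i * (m * ((q : ℤ) ^ (j - i) - 1)) := by
      have : (q : ℤ) ^ j = q ^ i * q ^ (j - i) := by
        rw [← pow_add]; congr 1; omega
      push_cast
      rw [this]
      ring
    rw [h1] at hd
    have hcop : IsCoprime ((p : ℤ) ^ n) ((q : ℤ) ^ i) :=
      (Nat.isCoprime_iff_coprime.2 hpq).pow
    have h2 : ((p : ℤ) ^ n) ∣ m * ((q : ℤ) ^ (j - i) - 1) := hcop.dvd_of_dvd_mul_left hd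
    have h6 : 1 ≤ q ^ (j - i) := Nat.one_le_pow _ _ (by omega)
    have h3 : p ^ n ∣ m.natAbs * (q ^ (j - i) - 1) := by
      have h4 := Int.natAbs_dvd_natAbs.2 h2
      rw [Int.natAbs_mul, Int.natAbs_pow, Int.natAbs_natCast] at h4
      have h5 : ((q : ℤ) ^ (j - i) - 1).natAbs = q ^ (j - i) - 1 := by
        have : ((q : ℤ) ^ (j - i) - 1) = ((q ^ (j - i) - 1 : ℕ) : ℤ) := by
          rw [Nat.cast_sub h6]; push_cast; rfl
        rw [this, Int.natAbs_natCast]
      rwa [h5] at h4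
    have hm0 : 0 < m.natAbs := Int.natAbs_pos.2 hm
    set g := Nat.gcd (p ^ n) m.natAbs with hg
    have hg0 : 0 < g := Nat.gcd_pos_of_pos_right _ hm0
    have h4 : p ^ n / g ∣ q ^ (j - i) - 1 := by
      have hc : Nat.Coprime (p ^ n / g) (m.natAbs / g) := Nat.coprime_div_gcd_div_gcd hg0
      have h5 : p ^ n / g ∣ (m.natAbs / g) * (q ^ (j - i) - 1) := by
        have e : g * ((m.natAbs / g) * (q ^ (j - i) - 1)) = m.natAbs * (q ^ (j - i) - 1) := by
          rw [← mul_assoc, Nat.mul_div_cancel' (Nat.gcd_dvd_right _ _)]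
        have e2 : g * (p ^ n / g) = p ^ n := Nat.mul_div_cancel' (Nat.gcd_dvd_left _ _)
        rw [← e, ← e2] at h3
        exact Nat.dvd_of_mul_dvd_mul_left hg0 h3
      exact hc.dvd_of_dvd_mul_left h5
    have h5 := hC (j - i) n (p ^ n / g) (by omega) (Nat.div_dvd_of_dvd (Nat.gcd_dvd_left _ _)) h4
    have h7 : p ^ n = g * (p ^ n / g) := (Nat.mul_div_cancel' (Nat.gcd_dvd_left _ _)).symm
    have h8 : g ≤ m.natAbs := Nat.le_of_dvd hm0 (Nat.gcd_dvd_right _ _)
    have h9 : p ^ n ≤ m.natAbs * (C * (j - i)) := by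
      calc p ^ n = g * (p ^ n / g) := h7
        _ ≤ m.natAbs * (C * (j - i)) := Nat.mul_le_mul h8 h5
    have h10 : C * (j - i) < C * N := Nat.mul_lt_mul_of_pos_left (by omega) (by omega)
    have h11 : m.natAbs * (C * (j - i)) < m.natAbs * (C * N) := Nat.mul_lt_mul_of_pos_left h10 hm0
    have h12 : m.natAbs * (C * N) = C * N * m.natAbs := by ring
    omega
  intro i hi j hj hij
  rcases lt_or_gt_of_ne hij with h | h
  · have := main i hi j hj h
    intro hc
    apply this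
    have e : m * (q ^ j : ℕ) - m * (q ^ i : ℕ) = -(m * (q ^ i : ℕ) - m * (q ^ j : ℕ)) := by ring
    rw [e]
    exact (dvd_neg).2 hc
  · exact main j hj i hi h

end Pool.Agent.W764.SH
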