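import Mathlib

/-!
Lattice points of the quadrant in thin slabs with irrational slope: comparison of slabs.
-/

set_option autoImplicit false

open Filter Topology

namespace Pool.Agent.W764.SH

/-- the points of the slab -/
def slab (α β x δ : ℝ) : Set (ℕ × ℕ) :=
  {u | x ≤ u.1 * α + u.2 * β ∧ u.1 * α + u.2 * β < x + δ}

lemma slab_finite {α β : ℝ} (hα : 0 < α) (hβ : 0 < β) (x δ : ℝ) : (slab α β x δ).Finite := by
  refine (((Finset.range (⌈(x + δ) / α⌉₊ + 1)) ×ˢ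
    (Finset.range (⌈(x + δ) / β⌉₊ + 1))).finite_toSet).subset ?_
  rintro ⟨a, b⟩ ⟨-, h⟩
  simp only at h
  rw [Finset.mem_coe, Finset.mem_product, Finset.mem_range, Finset.mem_range]
  have ha0 : (0 : ℝ) ≤ a * α := by positivity
  have hb0 : (0 : ℝ) ≤ b * β := by positivity
  constructor
  · have h1 : (a : ℝ) < (x + δ) / α := by
      rw [lt_div_iff₀ hα]; linarith
    have h2 : (a : ℝ) < (⌈(x + δ) / α⌉₊ : ℝ) := h1.trans_le (Nat.le_ceil _)
    have h3 : a < ⌈(x + δ) / α⌉₊ := by exact_mod_cast h2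
    show a < _
    omega
  · have h1 : (b : ℝ) < (x + δ) / β := by
      rw [lt_div_iff₀ hβ]; linarith
    have h2 : (b : ℝ) < (⌈(x + δ) / β⌉₊ : ℝ) := h1.trans_le (Nat.le_ceil _)
    have h3 : b < ⌈(x + δ) / β⌉₊ := by exact_mod_cast h2
    show b < _
    omega

/-- the number of points of the slab -/
noncomputable def cnt (α β x δ : ℝ) : ℕ := (slab α β x δ).ncard

lemma slab_mono {α β x δ x' δ' : ℝ} (h1 : x' ≤ x) (h2 : x + δ ≤ x' + δ') :
    slab α β x δ ⊆ slab α β x' δ' := by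
  rintro ⟨a, b⟩ ⟨h3, h4⟩
  exact ⟨h1.trans h3, h4.trans_le h2⟩

lemma cnt_mono {α β : ℝ} (hα : 0 < α) (hβ : 0 < β) {x δ x' δ' : ℝ} (h1 : x' ≤ x)
    (h2 : x + δ ≤ x' + δ') : cnt α β x δ ≤ cnt α β x' δ' :=
  Set.ncard_le_ncard (slab_mono h1 h2) (slab_finite hα hβ _ _)

/-- density of the group generated by two incommensurable reals -/
lemma dense_pair {α β : ℝ} (hβ : 0 < β) (h : Irrational (α / β)) (s : ℝ) {δ : ℝ} (hδ : 0 < δ) :
    ∃ u v : ℤ, s ≤ u * α + v * β ∧ u * α + v * β < s + δ := by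
  have hd : Dense (AddSubgroup.closure {α, β} : Set ℝ) := by
    rcases AddSubgroup.dense_or_cyclic (AddSubgroup.closure {α, β}) with h1 | ⟨a, ha⟩
    · exact h1
    · exfalso
      have h2 : α ∈ AddSubgroup.closure {a} := by
        rw [← ha]; exact AddSubgroup.subset_closure (by simp)
      have h3 : β ∈ AddSubgroup.closure {a} := by
        rw [← ha]; exact AddSubgroup.subset_closure (by simp)
      rw [AddSubgroup.mem_closure_singleton] at h2 h3
      obtain ⟨m, hm⟩ := h2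
      obtain ⟨n, hn⟩ := h3
      apply h
      rw [zsmul_eq_mul] at hm hn
      have ha0 : a ≠ 0 := by
        rintro rfl
        rw [mul_zero] at hn
        linarith
      refine ⟨(m : ℚ) / n, ?_⟩
      rw [← hm, ← hn]
      push_cast
      rw [mul_div_mul_right _ _ ha0]
  obtain ⟨y, hy, hy2⟩ := hd.exists_mem_open isOpen_Ioo
    (Set.nonempty_Ioo.2 (show s < s + δ by linarith))
  rw [SetLike.mem_coe, AddSubgroup.mem_closure_pair] at hy
  obtain ⟨u, v, huv⟩ := hy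
  rw [zsmul_eq_mul, zsmul_eq_mul] at huv
  exact ⟨u, v, by rw [huv]; exact hy2.1.le, by rw [huv]; exact hy2.2⟩

/-- a bounded family of translations -/
lemma transl {α β : ℝ} (hβ : 0 < β) (h : Irrational (α / β)) (R : ℝ) {δ : ℝ} (hδ : 0 < δ) :
    ∃ M : ℕ, ∀ s : ℝ, |s| ≤ R → ∃ u v : ℤ, s ≤ u * α + v * β ∧ u * α + v * β < s + δ ∧
      u.natAbs ≤ M ∧ v.natAbs ≤ M := by
  have h1 : ∀ i : ℤ, ∃ u v : ℤ, (i : ℝ) * (δ / 2) ≤ u * α + v * β ∧
      u * α + v * β < (i : ℝ) * (δ / 2) + δ / 2 := fun i =>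
    dense_pair hβ h _ (by positivity)
  choose u v huv1 huv2 using h1
  set I : Finset ℤ := Finset.Icc ⌈-R / (δ / 2)⌉ ⌈R / (δ / 2)⌉ with hI
  refine ⟨∑ i ∈ I, ((u i).natAbs + (v i).natAbs), fun s hs => ?_⟩
  rw [abs_le] at hs
  set i : ℤ := ⌈s / (δ / 2)⌉ with hi
  have hd2 : 0 < δ / 2 := by positivity
  have hiI : i ∈ I := by
    rw [hI, Finset.mem_Icc]
    exact ⟨Int.ceil_mono (by gcongr; exact hs.1), Int.ceil_mono (by gcongr; exact hs.2)⟩
  have hle : (u i).natAbs + (v i).natAbs ≤ ∑ i ∈ I, ((u i).natAbs + (v i).natAbs) :=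
    Finset.single_le_sum (f := fun i => (u i).natAbs + (v i).natAbs)
      (fun _ _ => Nat.zero_le _) hiI
  have h3 : s / (δ / 2) ≤ i := Int.le_ceil _
  have h4 : (i : ℝ) < s / (δ / 2) + 1 := Int.ceil_lt_add_one _
  have h5 : s ≤ i * (δ / 2) := by rwa [div_le_iff₀ hd2] at h3
  have h6 : (i : ℝ) * (δ / 2) < s + δ / 2 := by
    have : (i : ℝ) * (δ / 2) < (s / (δ / 2) + 1) * (δ / 2) := by gcongr
    have e : (s / (δ / 2) + 1) * (δ / 2) = s + δ / 2 := by field_simp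
    linarith
  refine ⟨u i, v i, h5.trans (huv1 i), ?_, by omega, by omega⟩
  have := huv2 i
  linarith

/-- the points of a slab near the axes -/
lemma near_axes {α β : ℝ} (hα : 0 < α) (hβ : 0 < β) (M : ℕ) (δ : ℝ) :
    ∃ B : ℕ, ∀ x : ℝ, {u ∈ slab α β x δ | u.1 < M ∨ u.2 < M}.ncard ≤ B := by
  refine ⟨M * (⌈δ / β⌉₊ + 1) + M * (⌈δ / α⌉₊ + 1), fun x => ?_⟩
  have hfib : ∀ (γ : ℝ), 0 < γ → ∀ y : ℝ,
      {b : ℕ | y ≤ b * γ ∧ b * γ < y + δ}.ncard ≤ ⌈δ / γ⌉₊ + 1 := by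
    intro γ hγ y
    have hsub : {b : ℕ | y ≤ b * γ ∧ b * γ < y + δ} ⊆
        (Finset.Ico ⌈y / γ⌉₊ (⌈y / γ⌉₊ + (⌈δ / γ⌉₊ + 1)) : Set ℕ) := by
      rintro b ⟨hb1, hb2⟩
      rw [Finset.coe_Ico, Set.mem_Ico]
      constructor
      · rw [Nat.ceil_le, div_le_iff₀ hγ]; exact hb1
      · have h1 : (b : ℝ) < y / γ + δ / γ := by
          rw [← add_div, lt_div_iff₀ hγ]; exact hb2
        have h2 : (b : ℝ) < (⌈y / γ⌉₊ : ℝ) + ⌈δ / γ⌉₊ :=
          h1.trans_le (add_le_add (Nat.le_ceil _) (Nat.le_ceil _))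
        have h3 : b < ⌈y / γ⌉₊ + ⌈δ / γ⌉₊ := by exact_mod_cast h2
        omega
    refine (Set.ncard_le_ncard hsub (Finset.finite_toSet _)).trans ?_
    rw [Set.ncard_coe_finset, Nat.card_Ico]
    omega
  have hsub : {u ∈ slab α β x δ | u.1 < M ∨ u.2 < M} ⊆
      (⋃ a ∈ Finset.range M, (fun b => (a, b)) '' {b : ℕ | x - a * α ≤ b * β ∧
        b * β < x - a * α + δ}) ∪
      (⋃ b ∈ Finset.range M, (fun a => (a, b)) '' {a : ℕ | x - b * β ≤ a * α ∧
        a * α < x - b * β + δ}) := by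
    rintro ⟨a, b⟩ ⟨⟨h1, h2⟩, h3⟩
    simp only at h1 h2 h3
    rcases h3 with h3 | h3
    · left
      simp only [Set.mem_iUnion]
      exact ⟨a, Finset.mem_range.2 h3, b, ⟨by linarith, by linarith⟩, rfl⟩
    · right
      simp only [Set.mem_iUnion]
      exact ⟨b, Finset.mem_range.2 h3, a, ⟨by linarith, by linarith⟩, rfl⟩
  have hfin1 : ∀ (γ : ℝ), 0 < γ → ∀ y : ℝ, {b : ℕ | y ≤ b * γ ∧ b * γ < y + δ}.Finite := by
    intro γ hγ y
    refine (Set.finite_Iio (⌈(y + δ) / γ⌉₊)).subset ?_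
    rintro b ⟨-, hb⟩
    rw [Set.mem_Iio, Nat.lt_ceil, lt_div_iff₀ hγ]
    exact hb
  refine (Set.ncard_le_ncard hsub ?_).trans ?_
  · refine Set.Finite.union ?_ ?_
    · exact (Finset.range M).finite_toSet.biUnion fun a _ => (hfin1 β hβ _).image _
    · exact (Finset.range M).finite_toSet.biUnion fun b _ => (hfin1 α hα _).image _
  · refine (Set.ncard_union_le _ _).trans (add_le_add ?_ ?_)
    · refine (Finset.set_ncard_biUnion_le _ _).trans ?_
      refine (Finset.sum_le_card_nsmul _ _ (⌈δ / β⌉₊ + 1) fun a _ => ?_).trans ?_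
      · exact (Set.ncard_image_le (hfin1 β hβ _)).trans (hfib β hβ _)
      · rw [Finset.card_range, smul_eq_mul]
    · refine (Finset.set_ncard_biUnion_le _ _).trans ?_
      refine (Finset.sum_le_card_nsmul _ _ (⌈δ / α⌉₊ + 1) fun a _ => ?_).trans ?_
      · exact (Set.ncard_image_le (hfin1 α hα _)).trans (hfib α hα _)
      · rw [Finset.card_range, smul_eq_mul]

end Pool.Agent.W764.SH
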