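import Pool.Agent.W764.SH.Comp
import Pool.Agent.W764.FB.Cover

/-!
Deterministic lemma: few multiples `n z`, `n` in a shell `ϑ ^ k ≤ n < ϑ ^ (k + 1)` of the
multiplicative semigroup generated by `p` and `q`, lie in a union of few small arcs, for some `k`
depending on the size of `z`.
-/

set_option autoImplicit false

open MeasureTheory Filter Topology Set

namespace Pool.Agent.W764.SH

open Pool.Agent.W764.FB
open Pool.Agent.H706R2.Ren (U measurableSet_U)

open Classical in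
/-- the elements `n = p ^ a * q ^ b` of the semigroup generated by `p` and `q` with
`ϑ ^ k ≤ n < ϑ ^ (k + 1)` -/
noncomputable def shell (p q : ℕ) (ϑ : ℝ) (k : ℕ) : Finset ℕ :=
  (Finset.range ⌈ϑ ^ (k + 1)⌉₊).filter fun n => (∃ a b : ℕ, n = p ^ a * q ^ b) ∧ ϑ ^ k ≤ n

open Classical in
lemma mem_shell {p q : ℕ} {ϑ : ℝ} {k n : ℕ} : n ∈ shell p q ϑ k ↔
    (∃ a b : ℕ, n = p ^ a * q ^ b) ∧ ϑ ^ k ≤ n ∧ (n : ℝ) < ϑ ^ (k + 1) := by
  unfold shell
  rw [Finset.mem_filter, Finset.mem_range, Nat.lt_ceil]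
  tauto

section
variable {p q : ℕ} (hp : 2 ≤ p) (hq : 2 ≤ q) {ϑ : ℝ} (hϑ : 1 < ϑ)
include hp hq

lemma log_pos' : 0 < Real.log p ∧ 0 < Real.log q :=
  ⟨Real.log_pos (by exact_mod_cast hp), Real.log_pos (by exact_mod_cast hq)⟩

lemma log_pow_mul (a b : ℕ) : Real.log ((p ^ a * q ^ b : ℕ) : ℝ) = a * Real.log p + b * Real.log q := by
  have hp0 : (p : ℝ) ≠ 0 := by exact_mod_cast (by omega : p ≠ 0)
  have hq0 : (q : ℝ) ≠ 0 := by exact_mod_cast (by omega : q ≠ 0)
  push_cast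
  rw [Real.log_mul (pow_ne_zero _ hp0) (pow_ne_zero _ hq0), Real.log_pow, Real.log_pow]

lemma pow_mul_inj (hirr : Irrational (Real.log p / Real.log q)) :
    Function.Injective fun u : ℕ × ℕ => p ^ u.1 * q ^ u.2 := by
  rintro ⟨a, b⟩ ⟨c, d⟩ h
  simp only at h
  obtain ⟨hlp, hlq⟩ := log_pos' hp hq
  have h1 := log_pow_mul hp hq a b
  rw [h, log_pow_mul hp hq c d] at h1
  by_cases hac : a = c
  · subst hac
    have h2 : ((d : ℝ) - b) * Real.log q = 0 := by linarith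
    rcases mul_eq_zero.1 h2 with h3 | h3
    · have : (d : ℝ) = b := by linarith
      have : d = b := by exact_mod_cast this
      rw [this]
    · exact absurd h3 hlq.ne'
  · exfalso
    apply hirr
    have hac' : (c : ℝ) - a ≠ 0 := by
      intro h0
      apply hac
      have : (a : ℝ) = c := by linarith
      exact_mod_cast this
    refine ⟨((b : ℚ) - d) / ((c : ℚ) - a), ?_⟩
    push_cast
    rw [eq_div_iff hlq.ne', div_mul_eq_mul_div, div_eq_iff hac']
    linarith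

include hϑ

lemma mem_slab_iff (k a b : ℕ) : (a, b) ∈ slab (Real.log p) (Real.log q) (k * Real.log ϑ) (Real.log ϑ) ↔
    ϑ ^ k ≤ ((p ^ a * q ^ b : ℕ) : ℝ) ∧ ((p ^ a * q ^ b : ℕ) : ℝ) < ϑ ^ (k + 1) := by
  have hϑ0 : 0 < ϑ := by linarith
  have hn : (0 : ℝ) < ((p ^ a * q ^ b : ℕ) : ℝ) := by
    have : 0 < p ^ a * q ^ b := by positivity
    exact_mod_cast this
  show (k * Real.log ϑ ≤ a * Real.log p + b * Real.log q ∧
    a * Real.log p + b * Real.log q < k * Real.log ϑ + Real.log ϑ) ↔ _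
  rw [← log_pow_mul hp hq]
  have e1 : (k : ℝ) * Real.log ϑ = Real.log (ϑ ^ k) := by rw [Real.log_pow]
  have e2 : (k : ℝ) * Real.log ϑ + Real.log ϑ = Real.log (ϑ ^ (k + 1)) := by
    rw [Real.log_pow]; push_cast; ring
  rw [e2, e1, Real.log_le_log_iff (by positivity) hn, Real.log_lt_log_iff hn (by positivity)]

lemma coe_shell (k : ℕ) : (shell p q ϑ k : Set ℕ) = (fun u : ℕ × ℕ => p ^ u.1 * q ^ u.2) ''
    slab (Real.log p) (Real.log q) (k * Real.log ϑ) (Real.log ϑ) := by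
  ext n
  rw [Finset.mem_coe, mem_shell]
  constructor
  · rintro ⟨⟨a, b, rfl⟩, h2⟩
    exact ⟨(a, b), (mem_slab_iff hp hq hϑ k a b).2 h2, rfl⟩
  · rintro ⟨⟨a, b⟩, h1, rfl⟩
    exact ⟨⟨a, b, rfl⟩, (mem_slab_iff hp hq hϑ k a b).1 h1⟩

lemma card_shell (hirr : Irrational (Real.log p / Real.log q)) (k : ℕ) :
    (shell p q ϑ k).card = cnt (Real.log p) (Real.log q) (k * Real.log ϑ) (Real.log ϑ) := by
  rw [← Set.ncard_coe_finset, coe_shell hp hq hϑ]
  exact Set.ncard_image_of_injective _ (pow_mul_inj hp hq hirr)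

/-- the shells grow linearly -/
lemma card_growth (hirr : Irrational (Real.log p / Real.log q)) :
    ∃ (c M : ℝ), 0 < c ∧ ∀ k : ℕ, c * k - M ≤ (shell p q ϑ k).card := by
  obtain ⟨hlp, hlq⟩ := log_pos' hp hq
  have hL : 0 < Real.log ϑ := Real.log_pos hϑ
  obtain ⟨c, M, hc, h⟩ := growth hlp hlq hirr hL
  refine ⟨c * Real.log ϑ, M, by positivity, fun k => ?_⟩
  rw [card_shell hp hq hϑ hirr]
  have := h (k * Real.log ϑ) (by positivity)
  calc c * Real.log ϑ * k - M = c * (k * Real.log ϑ) - M := by ring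
    _ ≤ _ := this

omit hp hq hϑ in
open Classical in
/-- positions of the multiples which lie in a small arc -/
lemma arc_log {K : ℕ} (cen : Fin K → T) {r : ℝ} (hr : 0 < r) (hr2 : r ≤ 1 / 2) {τ : ℝ} (hτ : 0 < τ)
    {n : ℕ} {W : ℕ} (h4 : 4 ≤ n * τ) (hW : n * τ + 1 ≤ W) (hn : n • ((τ : ℝ) : T) ∈ U cen r) :
    ∃ i : Fin K, ∃ j ∈ Finset.range W, 2 ≤ (j : ℝ) + Int.fract (Quotient.out (cen i)) - r ∧
      Real.log ((j : ℝ) + Int.fract (Quotient.out (cen i)) - r) - Real.log τ ≤ Real.log n ∧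
      Real.log n < Real.log ((j : ℝ) + Int.fract (Quotient.out (cen i)) - r) - Real.log τ + r := by
  have hn0 : (0 : ℝ) < n := by
    by_contra hcon
    push Not at hcon
    nlinarith
  unfold U at hn
  obtain ⟨i, hi⟩ := mem_iUnion.1 hn
  rw [Metric.mem_closedBall, dist_eq_norm] at hi
  set c : ℝ := Int.fract (Quotient.out (cen i)) with hc
  have hcT : ((c : ℝ) : T) = cen i := by
    have h1 : ((Quotient.out (cen i) : ℝ) : T) = cen i := Quotient.out_eq (cen i)
    have h2 : c = Quotient.out (cen i) - ⌊(Quotient.out (cen i) : ℝ)⌋ := rfl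
    rw [h2, AddCircle.coe_sub, h1]
    have h3 : ((⌊(Quotient.out (cen i) : ℝ)⌋ : ℝ) : T) = 0 := by
      rw [AddCircle.coe_eq_zero_iff]
      exact ⟨⌊(Quotient.out (cen i) : ℝ)⌋, by rw [zsmul_eq_mul, mul_one]⟩
    rw [h3, sub_zero]
  rw [← hcT, ← AddCircle.coe_nsmul, ← AddCircle.coe_sub, UnitAddCircle.norm_eq, nsmul_eq_mul] at hi
  set j : ℤ := round ((n : ℝ) * τ - c) with hj
  have hc0 : 0 ≤ c := Int.fract_nonneg _
  have hc1 : c < 1 := Int.fract_lt_one _
  rw [abs_le] at hi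
  have hj3 : (3 : ℤ) ≤ j := by
    have h1 : (2 : ℝ) < j := by linarith [hi.2]
    have h2 : (2 : ℤ) < j := by exact_mod_cast h1
    omega
  have hjn : (((j.toNat : ℕ) : ℤ)) = j := Int.toNat_of_nonneg (by omega)
  have hjn' : ((j.toNat : ℕ) : ℝ) = j := by exact_mod_cast hjn
  have hj3' : (3 : ℝ) ≤ j := by exact_mod_cast hj3
  refine ⟨i, j.toNat, ?_, ?_, ?_, ?_⟩
  · rw [Finset.mem_range]
    have h1 : (j : ℝ) < W := by linarith [hi.1]
    have h2 : ((j.toNat : ℕ) : ℝ) < W := by rw [hjn']; exact h1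
    exact_mod_cast h2
  · rw [hjn']; linarith
  · rw [hjn']
    have h1 : (j : ℝ) + c - r ≤ n * τ := by linarith [hi.1]
    have h2 : Real.log ((j : ℝ) + c - r) ≤ Real.log (n * τ) :=
      Real.log_le_log (by linarith) h1
    rw [Real.log_mul hn0.ne' hτ.ne'] at h2
    linarith
  · rw [hjn']
    have h0 : 0 < (j : ℝ) + c - r := by linarith
    have h1 : (n : ℝ) * τ ≤ ((j : ℝ) + c - r) * (1 + r * (4 / 5)) := by
      have h2 : (5 : ℝ) / 2 ≤ (j : ℝ) + c - r := by linarith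
      nlinarith [hi.2]
    have h2 : Real.log (n * τ) ≤ Real.log (((j : ℝ) + c - r) * (1 + r * (4 / 5))) :=
      Real.log_le_log (by positivity) h1
    rw [Real.log_mul hn0.ne' hτ.ne', Real.log_mul h0.ne' (by positivity)] at h2
    have h3 : Real.log (1 + r * (4 / 5)) ≤ r * (4 / 5) := by
      have := Real.log_le_sub_one_of_pos (show 0 < 1 + r * (4 / 5) by positivity)
      linarith
    linarith

open Classical in
/-- **Deterministic lemma** for positive reals. -/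
theorem det_pos (hirr : Irrational (Real.log p / Real.log q)) :
    ∃ c0 : ℝ, 0 < c0 ∧ ∀ (K : ℕ) (cen : Fin K → T) (r : ℝ), 1 ≤ K → 0 < r → r * K ≤ c0 →
      ∀ k0 : ℕ, ∃ τ0 : ℝ, 0 < τ0 ∧ ∀ τ : ℝ, 0 < τ → τ < τ0 → ∃ k, k0 ≤ k ∧
        2 * ((shell p q ϑ k).filter fun n => n • ((τ : ℝ) : T) ∈ U cen r).card ≤
          (shell p q ϑ k).card ∧ 0 < (shell p q ϑ k).card := by
  obtain ⟨hlp, hlq⟩ := log_pos' hp hq
  have hϑ0 : 0 < ϑ := by linarith
  set L := Real.log ϑ with hLdef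
  have hL : 0 < L := Real.log_pos hϑ
  set W : ℕ := ⌈4 * ϑ ^ 2⌉₊ + 1 with hW
  have hW1 : (1 : ℝ) ≤ W := by
    rw [hW]; push_cast
    have : (0 : ℝ) ≤ (⌈4 * ϑ ^ 2⌉₊ : ℝ) := Nat.cast_nonneg _
    linarith
  have hW0 : (0 : ℝ) < W := by linarith
  refine ⟨min (1 / 2) (L / (16 * W)), by positivity, ?_⟩
  intro K cen r hK hr hrK k0
  have hKR : (1 : ℝ) ≤ K := by exact_mod_cast hK
  have hrK1 : r * K ≤ 1 / 2 := hrK.trans (min_le_left _ _)
  have hrK2 : r * K ≤ L / (16 * W) := hrK.trans (min_le_right _ _)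
  have hr2 : r ≤ 1 / 2 := by nlinarith
  have hr3 : r ≤ L / (16 * W) := by nlinarith
  have hr4 : r ≤ L / 16 := by
    refine hr3.trans ?_
    rw [div_le_div_iff₀ (by positivity) (by norm_num)]
    nlinarith
  -- the width
  set J : ℕ := ⌊L / (2 * r)⌋₊ with hJ
  have hJ1 : 1 ≤ J := by
    rw [hJ, Nat.one_le_floor_iff, le_div_iff₀ (by positivity)]
    linarith
  have hJR : (0 : ℝ) < J := by exact_mod_cast hJ1
  have hJle : (J : ℝ) ≤ L / (2 * r) := Nat.floor_le (by positivity)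
  have hJge : L / (4 * r) ≤ J := by
    have h1 : L / (2 * r) < J + 1 := Nat.lt_floor_add_one _
    have h2 : 1 ≤ L / (4 * r) := by rw [le_div_iff₀ (by positivity)]; linarith
    have h3 : L / (2 * r) = 2 * (L / (4 * r)) := by field_simp; norm_num
    linarith
  set δ : ℝ := L / (2 * J) with hδ
  have hrδ : r ≤ δ := by
    rw [le_div_iff₀ (by positivity)] at hJle
    rw [hδ, le_div_iff₀ (by positivity)]
    linarith
  set R : ℝ := Real.log (W + 1) + Real.log 4 + L with hR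
  obtain ⟨M, hM⟩ := compare hlp hlq hirr (L := L) (R := R) hL hJ1
  obtain ⟨c, M', hc, hgr⟩ := card_growth hp hq hϑ hirr
  obtain ⟨k1, hk1⟩ := exists_nat_ge ((4 * (K * W * M : ℕ) + 1 + M') / c)
  set k2 : ℕ := max k0 k1 with hk2
  refine ⟨4 * Real.exp (-(k2 * L)), by positivity, fun τ hτ hττ => ?_⟩
  have hlogτ : Real.log τ < Real.log 4 - k2 * L := by
    have h1 : Real.log τ < Real.log (4 * Real.exp (-(k2 * L))) := Real.log_lt_log hτ hττ
    rw [Real.log_mul (by norm_num) (Real.exp_pos _).ne', Real.log_exp] at h1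
    linarith
  set k : ℕ := ⌈(Real.log 4 - Real.log τ) / L⌉₊ with hk
  have hpos : 0 ≤ (Real.log 4 - Real.log τ) / L := by
    refine div_nonneg ?_ hL.le
    have : 0 ≤ (k2 : ℝ) * L := by positivity
    linarith
  have hka : Real.log 4 - Real.log τ ≤ k * L := by
    have := Nat.le_ceil ((Real.log 4 - Real.log τ) / L)
    rwa [div_le_iff₀ hL] at this
  have hkb : k * L < Real.log 4 - Real.log τ + L := by
    have h1 := Nat.ceil_lt_add_one hpos
    have h2 : (k : ℝ) * L < ((Real.log 4 - Real.log τ) / L + 1) * L := by gcongr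
    have e : ((Real.log 4 - Real.log τ) / L + 1) * L = Real.log 4 - Real.log τ + L := by
      field_simp
    linarith
  have hkk : k2 ≤ k := by
    have h1 : (k2 : ℝ) * L < k * L := by linarith
    have h2 : (k2 : ℝ) < k := lt_of_mul_lt_mul_right h1 hL.le
    exact_mod_cast h2.le
  have hcard : 4 * (K * W * M) + 1 ≤ (shell p q ϑ k).card := by
    have h1 := hgr k
    have h2 : (4 * (K * W * M : ℕ) + 1 + M') / c ≤ k := by
      refine hk1.trans ?_
      exact_mod_cast (le_max_right k0 k1).trans hkk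
    rw [div_le_iff₀ hc] at h2
    have h3 : ((4 * (K * W * M) + 1 : ℕ) : ℝ) ≤ (shell p q ϑ k).card := by
      push_cast at h2 ⊢
      linarith
    exact_mod_cast h3
  refine ⟨k, (le_max_left _ _).trans hkk, ?_, by omega⟩
  -- the slabs
  set xs : Fin K × ℕ → ℝ := fun w =>
    Real.log ((w.2 : ℝ) + Int.fract (Quotient.out (cen w.1)) - r) - Real.log τ with hxs
  set I : Finset (Fin K × ℕ) := (Finset.univ ×ˢ Finset.range W).filter fun w =>
    2 ≤ (w.2 : ℝ) + Int.fract (Quotient.out (cen w.1)) - r with hI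
  have hIcard : I.card ≤ K * W := by
    refine (Finset.card_filter_le _ _).trans ?_
    rw [Finset.card_product, Finset.card_univ, Fintype.card_fin, Finset.card_range]
  have hclose : ∀ w ∈ I, |k * L - xs w| ≤ R := by
    intro w hw
    rw [hI, Finset.mem_filter, Finset.mem_product, Finset.mem_range] at hw
    obtain ⟨⟨-, hw1⟩, hw2⟩ := hw
    have hf1 : Int.fract (Quotient.out (cen w.1) : ℝ) < 1 := Int.fract_lt_one _
    have hw1' : (w.2 : ℝ) ≤ W := by exact_mod_cast hw1.le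
    have h1 : 0 ≤ Real.log ((w.2 : ℝ) + Int.fract (Quotient.out (cen w.1)) - r) :=
      Real.log_nonneg (by linarith)
    have h2 : Real.log ((w.2 : ℝ) + Int.fract (Quotient.out (cen w.1)) - r) ≤ Real.log (W + 1) :=
      Real.log_le_log (by linarith) (by linarith)
    have h4 : 0 ≤ Real.log 4 := Real.log_nonneg (by norm_num)
    simp only [hxs]
    rw [abs_le]
    constructor
    · linarith
    · linarith
  have hsub : (((shell p q ϑ k).filter fun n => n • ((τ : ℝ) : T) ∈ U cen r : Finset ℕ) : Set ℕ) ⊆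
      ⋃ w ∈ I, (fun u : ℕ × ℕ => p ^ u.1 * q ^ u.2) '' slab (Real.log p) (Real.log q) (xs w) δ := by
    intro n hn
    rw [Finset.mem_coe, Finset.mem_filter, mem_shell] at hn
    obtain ⟨⟨⟨a, b, hab⟩, h1, h2⟩, h3⟩ := hn
    have hn0 : (0 : ℝ) < n := lt_of_lt_of_le (by positivity) h1
    have hexp : ϑ ^ k * τ = Real.exp (k * L + Real.log τ) := by
      rw [Real.exp_add, Real.exp_log hτ]
      congr 1
      rw [hLdef, mul_comm, Real.exp_mul, Real.exp_log hϑ0, Real.rpow_natCast]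
    have h4 : 4 ≤ n * τ := by
      have h5 : 4 ≤ ϑ ^ k * τ := by
        rw [hexp, ← Real.log_le_iff_le_exp (by norm_num)]
        linarith
      calc (4 : ℝ) ≤ ϑ ^ k * τ := h5
        _ ≤ n * τ := by gcongr
    have h6 : n * τ + 1 ≤ W := by
      have h7 : ϑ ^ k * τ ≤ 4 * ϑ := by
        rw [hexp, ← Real.le_log_iff_exp_le (by positivity), Real.log_mul (by norm_num) hϑ0.ne']
        linarith
      have h8 : (n : ℝ) * τ ≤ ϑ * (4 * ϑ) := by
        calc (n : ℝ) * τ ≤ ϑ ^ (k + 1) * τ := by gcongr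
          _ = ϑ * (ϑ ^ k * τ) := by ring
          _ ≤ ϑ * (4 * ϑ) := by gcongr
      have h9 : 4 * ϑ ^ 2 ≤ ⌈4 * ϑ ^ 2⌉₊ := Nat.le_ceil _
      have h10 : ϑ * (4 * ϑ) = 4 * ϑ ^ 2 := by ring
      rw [hW]
      push_cast
      linarith
    obtain ⟨i, j, hj, hg0, hg1, hg2⟩ := arc_log cen hr hr2 hτ h4 h6 h3
    rw [mem_iUnion₂]
    refine ⟨(i, j), ?_, (a, b), ?_, hab.symm⟩
    · rw [hI, Finset.mem_filter, Finset.mem_product]
      exact ⟨⟨Finset.mem_univ _, hj⟩, hg0⟩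
    · show xs (i, j) ≤ a * Real.log p + b * Real.log q ∧
        a * Real.log p + b * Real.log q < xs (i, j) + δ
      rw [← log_pow_mul hp hq, ← hab]
      exact ⟨hg1, by
        have := hg2
        simp only [hxs]
        linarith⟩
  have hfin : ∀ w, ((fun u : ℕ × ℕ => p ^ u.1 * q ^ u.2) ''
      slab (Real.log p) (Real.log q) (xs w) δ).Finite := fun w =>
    (slab_finite hlp hlq _ _).image _
  have h1 : ((shell p q ϑ k).filter fun n => n • ((τ : ℝ) : T) ∈ U cen r).card ≤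
      ∑ w ∈ I, cnt (Real.log p) (Real.log q) (xs w) δ := by
    rw [← Set.ncard_coe_finset]
    refine (Set.ncard_le_ncard hsub (I.finite_toSet.biUnion fun w _ => hfin w)).trans ?_
    refine (Finset.set_ncard_biUnion_le _ _).trans (Finset.sum_le_sum fun w _ => ?_)
    exact Set.ncard_image_le (slab_finite hlp hlq _ _)
  have h2 : J * ∑ w ∈ I, cnt (Real.log p) (Real.log q) (xs w) δ ≤
      K * W * ((shell p q ϑ k).card + M) := by
    rw [Finset.mul_sum]
    refine (Finset.sum_le_card_nsmul _ _ ((shell p q ϑ k).card + M) fun w hw => ?_).trans ?_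
    · rw [card_shell hp hq hϑ hirr]
      exact hM (xs w) (k * L) (hclose w hw)
    · rw [smul_eq_mul]
      exact Nat.mul_le_mul_right _ hIcard
  set S := (shell p q ϑ k).card with hS
  set F := ((shell p q ϑ k).filter fun n => n • ((τ : ℝ) : T) ∈ U cen r).card with hF
  have h3 : (J : ℝ) * F ≤ K * W * (S + M) := by
    have : J * F ≤ K * W * (S + M) := (Nat.mul_le_mul_left _ h1).trans h2
    exact_mod_cast this
  have hcR : 4 * ((K : ℝ) * W * M) + 1 ≤ S := by exact_mod_cast hcard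
  have h4 : (4 : ℝ) * K * W ≤ J := by
    refine le_trans ?_ hJge
    rw [le_div_iff₀ (by positivity)]
    rw [le_div_iff₀ (by positivity)] at hrK2
    nlinarith
  have h5 : (2 : ℝ) * F ≤ S := by
    have h6 : (4 : ℝ) * K * W * F ≤ J * F := by gcongr
    have hKW : (1 : ℝ) ≤ K * W := by nlinarith
    have h7 : (4 : ℝ) * K * W * F ≤ K * W * (S + M) := h6.trans h3
    have h8 : 4 * (F : ℝ) ≤ S + M := by
      have h9 : (K * W : ℝ) * (4 * F) ≤ (K * W) * (S + M) := by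
        calc (K * W : ℝ) * (4 * F) = 4 * K * W * F := by ring
          _ ≤ _ := h7
      exact le_of_mul_le_mul_left h9 (by positivity)
    have h10 : (M : ℝ) ≤ K * W * M := by
      have hM0 : (0 : ℝ) ≤ M := Nat.cast_nonneg _
      nlinarith
    linarith
  exact_mod_cast h5

end

lemma mem_U_neg {K : ℕ} (cen : Fin K → T) (r : ℝ) (n : ℕ) (z : T) :
    n • z ∈ U cen r ↔ n • (-z) ∈ U (fun i => -cen i) r := by
  unfold U
  simp only [mem_iUnion, Metric.mem_closedBall, dist_eq_norm]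
  refine exists_congr fun i => ?_
  have e : n • (-z) - -cen i = -(n • z - cen i) := by
    rw [smul_neg]; abel
  rw [e, norm_neg]

open Classical in
/-- **Deterministic lemma.** -/
theorem det {p q : ℕ} (hp : 2 ≤ p) (hq : 2 ≤ q) {ϑ : ℝ} (hϑ : 1 < ϑ)
    (hirr : Irrational (Real.log p / Real.log q)) :
    ∃ c0 : ℝ, 0 < c0 ∧ ∀ (K : ℕ) (cen : Fin K → T) (r : ℝ), 1 ≤ K → 0 < r → r * K ≤ c0 →
      ∀ k0 : ℕ, ∃ τ0 : ℝ, 0 < τ0 ∧ ∀ z : T, z ≠ 0 → ‖z‖ < τ0 → ∃ k, k0 ≤ k ∧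
        2 * ((shell p q ϑ k).filter fun n => n • z ∈ U cen r).card ≤
          (shell p q ϑ k).card ∧ 0 < (shell p q ϑ k).card := by
  obtain ⟨c0, hc0, h⟩ := det_pos hp hq hϑ hirr
  refine ⟨c0, hc0, fun K cen r hK hr hrK k0 => ?_⟩
  obtain ⟨τ1, hτ1, h1⟩ := h K cen r hK hr hrK k0
  obtain ⟨τ2, hτ2, h2⟩ := h K (fun i => -cen i) r hK hr hrK k0
  refine ⟨min τ1 τ2, lt_min hτ1 hτ2, fun z hz hzn => ?_⟩
  obtain ⟨d0, rfl⟩ : ∃ d : ℝ, (d : T) = z := QuotientAddGroup.mk_surjective z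
  set d : ℝ := d0 - round d0 with hd
  have hdT : ((d : ℝ) : T) = ((d0 : ℝ) : T) := by
    rw [hd, AddCircle.coe_sub]
    have h3 : (((round d0 : ℤ) : ℝ) : T) = 0 := by
      rw [AddCircle.coe_eq_zero_iff]
      exact ⟨round d0, by rw [zsmul_eq_mul, mul_one]⟩
    rw [h3, sub_zero]
  have hdn : ‖((d0 : ℝ) : T)‖ = |d| := by rw [UnitAddCircle.norm_eq]
  rw [hdn] at hzn
  rw [← hdT] at hz ⊢
  rcases lt_trichotomy d 0 with hneg | h0 | hpos
  · rw [abs_of_neg hneg] at hzn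
    obtain ⟨k, hk, hk2⟩ := h2 (-d) (by linarith) (hzn.trans_le (min_le_right _ _))
    refine ⟨k, hk, ?_⟩
    have e : ∀ n : ℕ, (n • ((d : ℝ) : T) ∈ U cen r ↔ n • (((-d : ℝ)) : T) ∈ U (fun i => -cen i) r) := by
      intro n
      rw [AddCircle.coe_neg]
      exact mem_U_neg cen r n _
    simp_rw [e]
    exact hk2
  · exfalso
    apply hz
    rw [h0]
    exact AddCircle.coe_zero _
  · rw [abs_of_pos hpos] at hzn
    exact h1 d hpos (hzn.trans_le (min_le_left _ _))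

end Pool.Agent.W764.SH
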