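import Pool.Agent.W764.SH.Coprime

/-!
The density of an invariant measure with respect to its fibre average is invariant under `×q`.
-/

set_option autoImplicit false

open MeasureTheory Filter Topology Set
open scoped ENNReal

namespace Pool.Agent.W764.SH

open Pool.Agent.W764.FB

lemma hh_mod {p : ℕ} (hp : 0 < p) (k : ℕ) : hh p 1 (k % p) = hh p 1 k := by
  have hpR : (p : ℝ) ≠ 0 := by exact_mod_cast hp.ne'
  unfold hh
  have h : (k : ℝ) / (p : ℝ) ^ 1 = ((k % p : ℕ) : ℝ) / (p : ℝ) ^ 1 + (k / p : ℕ) := by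
    have h1 : (k : ℝ) = ((k % p : ℕ) : ℝ) + p * (k / p : ℕ) := by
      exact_mod_cast (Nat.mod_add_div k p).symm
    rw [pow_one]
    conv_lhs => rw [h1]
    field_simp
  rw [h, AddCircle.coe_add]
  have h2 : (((k / p : ℕ) : ℝ) : T) = 0 := by
    rw [AddCircle.coe_eq_zero_iff]
    exact ⟨((k / p : ℕ) : ℤ), by rw [zsmul_eq_mul, mul_one, Int.cast_natCast]⟩
  rw [h2, add_zero]

/-- the multiplication by `q` permutes the points of a fibre of `×p` -/
lemma fs_mul {p q : ℕ} (hp : 0 < p) (hpq : Nat.Coprime p q) (g : T → ℝ≥0∞) (x : T) :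
    fs p 1 (fun y => g (q • y)) x = fs p 1 g (q • x) := by
  unfold fs
  rw [pow_one]
  have h1 : ∀ k ∈ Finset.range p, g (q • (x + hh p 1 k)) = g (q • x + hh p 1 ((q * k) % p)) := by
    intro k _
    rw [smul_add, hh_mod hp]
    congr 2
    unfold hh
    rw [← AddCircle.coe_nsmul]
    congr 1
    rw [nsmul_eq_mul]
    push_cast
    ring
  rw [Finset.sum_congr rfl h1]
  have hinj : Set.InjOn (fun k => (q * k) % p) (Finset.range p : Set ℕ) := by
    intro a ha b hb hab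
    rw [Finset.coe_range, mem_Iio] at ha hb
    have h2 : q * a ≡ q * b [MOD p] := hab
    have h3 : a ≡ b [MOD p] := Nat.ModEq.cancel_left_of_coprime hpq h2
    have h4 := h3
    unfold Nat.ModEq at h4
    rwa [Nat.mod_eq_of_lt ha, Nat.mod_eq_of_lt hb] at h4
  have hmaps : ∀ k ∈ Finset.range p, (q * k) % p ∈ Finset.range p := fun k _ =>
    Finset.mem_range.2 (Nat.mod_lt _ hp)
  have hsurj : Set.SurjOn (fun k => (q * k) % p) (Finset.range p : Set ℕ)
      (Finset.range p : Set ℕ) :=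
    Finset.surjOn_of_injOn_of_card_le _ hmaps hinj le_rfl
  exact Finset.sum_nbij (fun k => (q * k) % p) hmaps hinj hsurj fun k _ => rfl

lemma mu1_inv {p q : ℕ} (hp : 0 < p) (hpq : Nat.Coprime p q) (μ : Measure T)
    (hiq : MeasurePreserving (fun x : T => q • x) μ μ) :
    MeasurePreserving (fun x : T => q • x) (mu1 p μ) (mu1 p μ) := by
  refine ⟨(continuous_nsmul q).measurable, ?_⟩
  refine Measure.ext_of_lintegral _ fun g hg => ?_
  have hq : Measurable fun x : T => q • x := (continuous_nsmul q).measurable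
  have hgq : Measurable fun x : T => g (q • x) := hg.comp hq
  rw [lintegral_map hg hq, lintegral_mu1 p μ hgq, lintegral_mu1 p μ hg]
  have h1 : ∀ x, fs p 1 (fun x : T => g (q • x)) x = fs p 1 g (q • x) := fun x =>
    fs_mul hp hpq g x
  rw [lintegral_congr h1]
  exact hiq.lintegral_comp (measurable_fs p 1 hg)

lemma lint_mu1 {p : ℕ} (μ : Measure T) {ψ : T → ℝ≥0∞} (hψ : Measurable ψ)
    (h : ∀ g : T → ℝ≥0∞, Measurable g → ∫⁻ x, fs p 1 (fun y => ψ y * g y) x ∂μ = ∫⁻ x, g x ∂μ)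
    {g : T → ℝ≥0∞} (hg : Measurable g) : ∫⁻ x, ψ x * g x ∂(mu1 p μ) = ∫⁻ x, g x ∂μ := by
  have hm : Measurable fun x => ψ x * g x := hψ.mul hg
  rw [lintegral_mu1 p μ hm, h g hg]

/-- the density is invariant under `×q` -/
theorem psi_inv {p q : ℕ} (hp : 0 < p) (hpq : Nat.Coprime p q) (μ : Measure T) [IsFiniteMeasure μ]
    (hiq : MeasurePreserving (fun x : T => q • x) μ μ) {ψ : T → ℝ≥0∞} (hψ : Measurable ψ)
    (hψ1 : ∀ x, ψ x ≤ 1)
    (h : ∀ g : T → ℝ≥0∞, Measurable g → ∫⁻ x, fs p 1 (fun y => ψ y * g y) x ∂μ = ∫⁻ x, g x ∂μ) :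
    ∀ᵐ x ∂μ, ψ (q • x) = ψ x := by
  have hq : Measurable fun x : T => q • x := (continuous_nsmul q).measurable
  have hac : μ ≪ mu1 p μ := (le_mu1 hp μ).absolutelyContinuous
  refine hac.ae_le ?_
  have hψq : Measurable fun x : T => ψ (q • x) := hψ.comp hq
  have e1 : ∫⁻ x, ψ x * ψ (q • x) ∂(mu1 p μ) = ∫⁻ x, ψ x * ψ x ∂(mu1 p μ) := by
    rw [lint_mu1 μ hψ h hψq, lint_mu1 μ hψ h hψ]
    exact hiq.lintegral_comp hψ
  have e2 : ∫⁻ x, ψ (q • x) * ψ (q • x) ∂(mu1 p μ) = ∫⁻ x, ψ x * ψ x ∂(mu1 p μ) :=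
    (mu1_inv hp hpq μ hiq).lintegral_comp (hψ.mul hψ)
  have hreal : ∀ a b : ℝ≥0∞, a ≤ 1 → b ≤ 1 → a * b + a * b ≤ a * a + b * b ∧
      (a * b + a * b = a * a + b * b → b = a) := by
    intro a b ha hb
    have ha' : a ≠ ⊤ := ne_top_of_le_ne_top (by simp) ha
    have hb' : b ≠ ⊤ := ne_top_of_le_ne_top (by simp) hb
    lift a to NNReal using ha'
    lift b to NNReal using hb'
    constructor
    · have : a * b + a * b ≤ a * a + b * b := by
        rw [← NNReal.coe_le_coe]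
        push_cast
        nlinarith [sq_nonneg ((a : ℝ) - b)]
      exact_mod_cast this
    · intro hab
      have h1 : a * b + a * b = a * a + b * b := by exact_mod_cast hab
      have h2 : (a : ℝ) * b + a * b = a * a + b * b := by exact_mod_cast h1
      have h3 : ((a : ℝ) - b) ^ 2 = 0 := by nlinarith
      have h4 : (a : ℝ) - b = 0 := by simpa using h3
      have h5 : (a : ℝ) = b := by linarith
      have h6 : a = b := by exact_mod_cast h5
      rw [h6]
  have hle : ∀ x, ψ x * ψ (q • x) + ψ x * ψ (q • x) ≤ ψ x * ψ x + ψ (q • x) * ψ (q • x) :=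
    fun x => (hreal _ _ (hψ1 _) (hψ1 _)).1
  have hI : ∫⁻ x, (ψ x * ψ x + ψ (q • x) * ψ (q • x)) ∂(mu1 p μ) =
      ∫⁻ x, (ψ x * ψ (q • x) + ψ x * ψ (q • x)) ∂(mu1 p μ) := by
    have m1 : Measurable fun x => ψ x * ψ x := hψ.mul hψ
    have m2 : Measurable fun x => ψ x * ψ (q • x) := hψ.mul hψq
    rw [lintegral_add_left m1, lintegral_add_left m2, e1, e2]
  have hfin : ∫⁻ x, (ψ x * ψ (q • x) + ψ x * ψ (q • x)) ∂(mu1 p μ) ≠ ⊤ := by
    have h1 : ∫⁻ x, (ψ x * ψ (q • x) + ψ x * ψ (q • x)) ∂(mu1 p μ) ≤ ∫⁻ _, 2 ∂(mu1 p μ) := by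
      refine lintegral_mono fun x => ?_
      have h2 : ψ x * ψ (q • x) ≤ 1 := mul_le_one' (hψ1 _) (hψ1 _)
      calc ψ x * ψ (q • x) + ψ x * ψ (q • x) ≤ 1 + 1 := add_le_add h2 h2
        _ = 2 := one_add_one_eq_two
    refine ne_top_of_le_ne_top ?_ h1
    rw [lintegral_const]
    exact ENNReal.mul_ne_top (by simp) (measure_ne_top _ _)
  have hae := ae_eq_of_ae_le_of_lintegral_le (Eventually.of_forall hle) hfin
    ((hψ.mul hψ).add (hψq.mul hψq)).aemeasurable hI.le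
  filter_upwards [hae] with x hx
  exact (hreal _ _ (hψ1 _) (hψ1 _)).2 hx

end Pool.Agent.W764.SH
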