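import Pool.Agent.W764.SH.Vol

/-!
Pointwise convergence of shell averages characterises Lebesgue measure.
-/

set_option autoImplicit false

open MeasureTheory Filter Topology Set
open scoped ENNReal

namespace Pool.Agent.W764.SH

open Pool.Agent.W764.FB

/-- the restriction of the measure to the set of convergence -/
theorem main {p q : ℕ} (hp : 2 ≤ p) (hq : 2 ≤ q) (hpq : Nat.Coprime p q) {ϑ : ℝ}
    (hϑ : 1 < ϑ) (μ : Measure T) [IsProbabilityMeasure μ] (hna : ∀ x, μ {x} = 0)
    (hip : MeasurePreserving (fun x : T => p • x) μ μ)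
    (hiq : MeasurePreserving (fun x : T => q • x) μ μ) :
    ∃ D : Set T, MeasurableSet D ∧ μ.restrict D = μ D • (volume : Measure T) ∧
      (∀ᵐ x ∂μ, (Conv p q ϑ x ↔ x ∈ D)) := by
  have hirr := irr_of_coprime hp hq hpq
  obtain ⟨D, hDm, hDp, hDq, hD, B, hBm, hB0, hB⟩ := decomp hp hq hpq μ hip hiq
  refine ⟨D, hDm, hD, ?_⟩
  -- on `D`
  have h1 : ∀ᵐ x ∂μ, x ∈ D → Conv p q ϑ x := by
    rw [← ae_restrict_iff' hDm, hD]
    exact Measure.ae_smul_measure (conv_vol hp hq hpq hϑ) _
  -- off `D`
  have h2 : ∀ᵐ x ∂μ, x ∉ D → ¬ Conv p q ϑ x := by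
    rcases eq_or_ne (μ Dᶜ) 0 with h0 | h0
    · have : ∀ᵐ x ∂μ, x ∈ D := by rw [ae_iff]; exact h0
      filter_upwards [this] with x hx hx2
      exact absurd hx hx2
    · set ν : Measure T := (μ Dᶜ)⁻¹ • μ.restrict Dᶜ with hν
      have hν1 : IsProbabilityMeasure ν := by
        refine ⟨?_⟩
        rw [hν, Measure.smul_apply, Measure.restrict_apply_univ, smul_eq_mul,
          ENNReal.inv_mul_cancel h0 (measure_ne_top _ _)]
      have hmp : ∀ n : ℕ, MeasurePreserving (fun x : T => n • x) μ μ →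
          (∀ᵐ x ∂μ, (n • x ∈ D ↔ x ∈ D)) → MeasurePreserving (fun x : T => n • x) ν ν := by
        intro n hi hd
        have h3 := restrict_mp hi hDm.compl (hd.mono fun x hx => not_congr hx)
        refine ⟨h3.measurable, ?_⟩
        rw [hν, Measure.map_smul, h3.map_eq]
      have hνna : ∀ x, ν {x} = 0 := by
        intro x
        rw [hν, Measure.smul_apply, smul_eq_mul]
        have : μ.restrict Dᶜ {x} = 0 :=
          le_antisymm ((Measure.restrict_apply_le _ _).trans (hna x).le) zero_le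
        rw [this, mul_zero]
      have hinj : EssInj p ν := by
        refine ⟨B, hBm, ?_, hB⟩
        rw [hν, Measure.smul_apply, smul_eq_mul, Measure.restrict_apply hBm.compl]
        have : Bᶜ ∩ Dᶜ = Dᶜ \ B := by
          ext x; simp only [mem_inter_iff, mem_compl_iff, mem_diff]; tauto
        rw [this, hB0, mul_zero]
      have h3 := null_conv hp hq hϑ hirr ν hνna (hmp p hip hDp) (hmp q hiq hDq) hinj
      rw [hν, Measure.smul_apply, smul_eq_mul, mul_eq_zero] at h3
      have h4 : μ.restrict Dᶜ {x | Conv p q ϑ x} = 0 := by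
        rcases h3 with h3 | h3
        · exact absurd h3 (ENNReal.inv_ne_zero.2 (measure_ne_top _ _))
        · exact h3
      have h5 : ∀ᵐ x ∂(μ.restrict Dᶜ), ¬ Conv p q ϑ x := by
        rw [ae_iff]
        simpa using h4
      rw [ae_restrict_iff' hDm.compl] at h5
      exact h5
  filter_upwards [h1, h2] with x hx1 hx2
  by_cases hx : x ∈ D
  · exact ⟨fun _ => hx, fun _ => hx1 hx⟩
  · exact ⟨fun h => absurd h (hx2 hx), fun h => absurd h hx⟩

end Pool.Agent.W764.SH
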