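import Pool.Agent.W764.SH.Null
import Pool.Agent.W764.FB.Comp

/-!
Convergence of the shell averages at Lebesgue almost every point.
-/

set_option autoImplicit false

open MeasureTheory Filter Topology Set
open scoped ENNReal

namespace Pool.Agent.W764.SH

open Pool.Agent.W764.FB

/-- `log p / log q` is irrational for coprime `p, q ≥ 2` -/
lemma irr_of_coprime {p q : ℕ} (hp : 2 ≤ p) (hq : 2 ≤ q) (hpq : Nat.Coprime p q) :
    Irrational (Real.log p / Real.log q) := by
  obtain ⟨hlp, hlq⟩ := log_pos' hp hq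
  rintro ⟨w, hw⟩
  have hw0 : (0 : ℝ) < w := by rw [hw]; positivity
  have hw0' : 0 < w := by exact_mod_cast hw0
  have hnum : 0 < w.num := Rat.num_pos.2 hw0'
  have hden : (w.den : ℝ) ≠ 0 := by exact_mod_cast w.den_nz
  have h1 : (w.den : ℝ) * Real.log p = (w.num.toNat : ℝ) * Real.log q := by
    have e : (w : ℝ) = (w.num : ℝ) / w.den := by exact_mod_cast (Rat.num_div_den w).symm
    have e2 : ((w.num.toNat : ℕ) : ℝ) = (w.num : ℝ) := by
      exact_mod_cast Int.toNat_of_nonneg hnum.le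
    rw [e, div_eq_div_iff hden hlq.ne'] at hw
    rw [e2]
    linarith
  have h2 : p ^ w.den = q ^ w.num.toNat := by
    have h3 : Real.log ((p : ℝ) ^ w.den) = Real.log ((q : ℝ) ^ w.num.toNat) := by
      rw [Real.log_pow, Real.log_pow, h1]
    have h4 := Real.log_injOn_pos (Set.mem_Ioi.2 (by positivity)) (Set.mem_Ioi.2 (by positivity)) h3
    exact_mod_cast h4
  have h3 : Nat.Coprime (p ^ w.den) (q ^ w.num.toNat) := hpq.pow _ _
  rw [h2, Nat.coprime_self] at h3
  have h4 : w.num.toNat ≠ 0 := by omega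
  have h5 : 1 < q ^ w.num.toNat := Nat.one_lt_pow h4 (by omega)
  omega

/-- the number of multiples of `γ` in an interval of length `L` -/
lemma fib_card {γ : ℝ} (hγ : 0 < γ) (L y : ℝ) :
    {b : ℕ | y ≤ b * γ ∧ b * γ < y + L}.ncard ≤ ⌈L / γ⌉₊ + 1 := by
  have hsub : {b : ℕ | y ≤ b * γ ∧ b * γ < y + L} ⊆
      (Finset.Ico ⌈y / γ⌉₊ (⌈y / γ⌉₊ + (⌈L / γ⌉₊ + 1)) : Set ℕ) := by
    rintro b ⟨hb1, hb2⟩
    rw [Finset.coe_Ico, Set.mem_Ico]
    constructor
    · rw [Nat.ceil_le, div_le_iff₀ hγ]; exact hb1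
    · have h1 : (b : ℝ) < y / γ + L / γ := by
        rw [← add_div, lt_div_iff₀ hγ]; exact hb2
      have h2 : (b : ℝ) < (⌈y / γ⌉₊ : ℝ) + ⌈L / γ⌉₊ :=
        h1.trans_le (add_le_add (Nat.le_ceil _) (Nat.le_ceil _))
      have h3 : b < ⌈y / γ⌉₊ + ⌈L / γ⌉₊ := by exact_mod_cast h2
      omega
  refine (Set.ncard_le_ncard hsub (Finset.finite_toSet _)).trans ?_
  rw [Set.ncard_coe_finset, Nat.card_Ico]
  omega

open Classical in
/-- the elements of a shell with a given exponent of `p` -/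
lemma fix_card {p q : ℕ} (hp : 2 ≤ p) (hq : 2 ≤ q) {ϑ : ℝ} (hϑ : 1 < ϑ) (k a : ℕ) :
    ((shell p q ϑ k).filter fun n => ∃ b, n = p ^ a * q ^ b).card ≤
      ⌈Real.log ϑ / Real.log q⌉₊ + 1 := by
  obtain ⟨hlp, hlq⟩ := log_pos' hp hq
  have hsub : (((shell p q ϑ k).filter fun n => ∃ b, n = p ^ a * q ^ b : Finset ℕ) : Set ℕ) ⊆
      (fun b => p ^ a * q ^ b) '' {b : ℕ | k * Real.log ϑ - a * Real.log p ≤ b * Real.log q ∧
        b * Real.log q < k * Real.log ϑ - a * Real.log p + Real.log ϑ} := by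
    intro n hn
    rw [Finset.mem_coe, Finset.mem_filter] at hn
    obtain ⟨hn1, b, rfl⟩ := hn
    refine ⟨b, ?_, rfl⟩
    have h1 := (mem_slab_iff hp hq hϑ k a b).2 (mem_shell.1 hn1).2
    obtain ⟨h2, h3⟩ := h1
    simp only at h2 h3
    exact ⟨by linarith, by linarith⟩
  have hfin : {b : ℕ | k * Real.log ϑ - a * Real.log p ≤ b * Real.log q ∧
      b * Real.log q < k * Real.log ϑ - a * Real.log p + Real.log ϑ}.Finite := by
    refine (Set.finite_Iio ⌈(k * Real.log ϑ - a * Real.log p + Real.log ϑ) / Real.log q⌉₊).subset ?_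
    rintro b ⟨-, hb⟩
    rw [Set.mem_Iio, Nat.lt_ceil, lt_div_iff₀ hlq]
    exact hb
  rw [← Set.ncard_coe_finset]
  refine (Set.ncard_le_ncard hsub (hfin.image _)).trans ?_
  exact (Set.ncard_image_le hfin).trans (fib_card hlq _ _)

open Classical in
/-- the number of representations as a sum of two elements of a shell -/
lemma pair_card {p q : ℕ} (hp : 2 ≤ p) (hq : 2 ≤ q) (hpq : Nat.Coprime p q) {ϑ : ℝ} (hϑ : 1 < ϑ) :
    ∃ B : ℕ, ∀ k s : ℕ, ((shell p q ϑ k ×ˢ shell p q ϑ k).filter fun u => u.1 + u.2 = s).card ≤ B := by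
  obtain ⟨hlp, hlq⟩ := log_pos' hp hq
  set B0 : ℕ := ⌈Real.log ϑ / Real.log q⌉₊ + 1 with hB0
  obtain ⟨l, hl, hlp'⟩ := Nat.exists_prime_and_dvd (show p ≠ 1 by omega)
  have hfact : Fact l.Prime := ⟨hl⟩
  have hlq' : ¬ l ∣ q := by
    intro h
    have h1 : l ∣ Nat.gcd p q := Nat.dvd_gcd hlp' h
    rw [hpq] at h1
    exact hl.one_lt.ne' (Nat.dvd_one.1 h1)
  set e : ℕ := padicValNat l p with he
  have he1 : 0 < e := by
    have h1 := one_le_padicValNat_of_dvd (show p ≠ 0 by omega) hlp'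
    exact h1
  set g : ℕ → ℕ := fun s => padicValNat l s / e with hg
  have hgv : ∀ a w : ℕ, ¬ l ∣ w → g (p ^ a * w) = a := by
    intro a w hw
    have hw0 : w ≠ 0 := by rintro rfl; exact hw (dvd_zero _)
    simp only [hg]
    have hpw : padicValNat l (p ^ a) = a * padicValNat l p := padicValNat.pow p a
    rw [padicValNat.mul (pow_ne_zero _ (by omega)) hw0, hpw,
      padicValNat.eq_zero_of_not_dvd hw, add_zero, ← he, Nat.mul_div_cancel _ he1]
  have hqb : ∀ b, ¬ l ∣ q ^ b := fun b h => hlq' (hl.dvd_of_dvd_pow h)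
  refine ⟨B0 + (B0 + (B0 + B0)), fun k s => ?_⟩
  set S := shell p q ϑ k with hS
  set A : Finset ℕ := S.filter fun n => ∃ b, n = p ^ (g s) * q ^ b with hA
  have hAc : A.card ≤ B0 := fix_card hp hq hϑ k (g s)
  set D : Finset ℕ := (Finset.range B0).image fun t => s / (1 + q ^ t) with hD
  have hDc : D.card ≤ B0 := Finset.card_image_le.trans (Finset.card_range _).le
  have hq0 : 0 < q := by omega
  -- equal exponents of `p`
  have hcase : ∀ a b d : ℕ, p ^ a * q ^ b ∈ S → p ^ a * q ^ d ∈ S → b ≤ d →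
      p ^ a * q ^ b + p ^ a * q ^ d = s → p ^ a * q ^ b ∈ D := by
    intro a b d h1 h2 hbd hs
    have h3 := (mem_slab_iff hp hq hϑ k a b).2 (mem_shell.1 h1).2
    have h4 := (mem_slab_iff hp hq hϑ k a d).2 (mem_shell.1 h2).2
    obtain ⟨h5, h6⟩ := h3
    obtain ⟨h7, h8⟩ := h4
    simp only at h5 h6 h7 h8
    have h9 : ((d - b : ℕ) : ℝ) * Real.log q < Real.log ϑ := by
      rw [Nat.cast_sub hbd]
      linarith
    have h10 : ((d - b : ℕ) : ℝ) < Real.log ϑ / Real.log q := by
      rwa [lt_div_iff₀ hlq]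
    have h11 : d - b < B0 := by
      have h12 : ((d - b : ℕ) : ℝ) < ⌈Real.log ϑ / Real.log q⌉₊ := h10.trans_le (Nat.le_ceil _)
      have h13 : d - b < ⌈Real.log ϑ / Real.log q⌉₊ := by exact_mod_cast h12
      omega
    rw [hD, Finset.mem_image]
    refine ⟨d - b, Finset.mem_range.2 h11, ?_⟩
    have e1 : q ^ d = q ^ b * q ^ (d - b) := by rw [← pow_add]; congr 1; omega
    have e2 : s = (p ^ a * q ^ b) * (1 + q ^ (d - b)) := by
      rw [← hs, e1]; ring
    rw [e2]
    exact Nat.mul_div_cancel _ (by positivity)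
  have hsub : ((S ×ˢ S).filter fun u => u.1 + u.2 = s) ⊆
      A.image (fun n => (n, s - n)) ∪ (A.image (fun n => (s - n, n)) ∪
        (D.image (fun n => (n, s - n)) ∪ D.image (fun n => (s - n, n)))) := by
    rintro ⟨n, m⟩ hu
    rw [Finset.mem_filter, Finset.mem_product] at hu
    obtain ⟨⟨hn, hm⟩, hs⟩ := hu
    simp only at hn hm hs
    obtain ⟨⟨a, b, rfl⟩, -⟩ := mem_shell.1 hn
    obtain ⟨⟨c, d, rfl⟩, -⟩ := mem_shell.1 hm
    simp only [Finset.mem_union, Finset.mem_image, Prod.mk.injEq]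
    rcases lt_trichotomy a c with hac | hac | hac
    · left
      refine ⟨p ^ a * q ^ b, ?_, rfl, by omega⟩
      rw [hA, Finset.mem_filter]
      refine ⟨hn, b, ?_⟩
      have h1 : s = p ^ a * (q ^ b + p ^ (c - a) * q ^ d) := by
        have e1 : p ^ c = p ^ a * p ^ (c - a) := by rw [← pow_add]; congr 1; omega
        rw [← hs, e1]; ring
      have h2 : ¬ l ∣ q ^ b + p ^ (c - a) * q ^ d := by
        intro h
        have h3 : l ∣ p ^ (c - a) * q ^ d :=
          (hlp'.trans (dvd_pow_self p (by omega))).mul_right _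
        exact hqb b ((Nat.dvd_add_left h3).1 h)
      rw [h1, hgv _ _ h2]
    · subst hac
      rcases le_total b d with hbd | hbd
      · right; right; left
        exact ⟨p ^ a * q ^ b, hcase a b d hn hm hbd hs, rfl, by omega⟩
      · right; right; right
        exact ⟨p ^ a * q ^ d, hcase a d b hm hn hbd (by omega), by omega, rfl⟩
    · right; left
      refine ⟨p ^ c * q ^ d, ?_, by omega, rfl⟩
      rw [hA, Finset.mem_filter]
      refine ⟨hm, d, ?_⟩
      have h1 : s = p ^ c * (q ^ d + p ^ (a - c) * q ^ b) := by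
        have e1 : p ^ a = p ^ c * p ^ (a - c) := by rw [← pow_add]; congr 1; omega
        rw [← hs, e1]; ring
      have h2 : ¬ l ∣ q ^ d + p ^ (a - c) * q ^ b := by
        intro h
        have h3 : l ∣ p ^ (a - c) * q ^ b :=
          (hlp'.trans (dvd_pow_self p (by omega))).mul_right _
        exact hqb d ((Nat.dvd_add_left h3).1 h)
      rw [h1, hgv _ _ h2]
  refine (Finset.card_le_card hsub).trans ?_
  refine (Finset.card_union_le _ _).trans (add_le_add (Finset.card_image_le.trans hAc) ?_)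
  refine (Finset.card_union_le _ _).trans (add_le_add (Finset.card_image_le.trans hAc) ?_)
  exact (Finset.card_union_le _ _).trans (add_le_add (Finset.card_image_le.trans hDc)
    (Finset.card_image_le.trans hDc))

open Classical in
/-- fourth moment of exponential sums -/
lemma fourth_gen (S : Finset ℕ) {m : ℤ} (hm : m ≠ 0) (B : ℕ)
    (hB : ∀ s : ℕ, ((S ×ˢ S).filter fun u => u.1 + u.2 = s).card ≤ B) :
    ∫ x : T, ‖∑ n ∈ S, fourier m (n • x)‖ ^ 4 ≤ B * (S.card : ℝ) ^ 2 := by
  set I := S ×ˢ S with hI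
  set s : ℕ × ℕ → ℤ := fun u => m * (u.1 : ℕ) + m * (u.2 : ℕ) with hs
  set E : T → ℂ := fun x => ∑ n ∈ S, fourier m (n • x) with hE
  have hsq : ∀ x, E x ^ 2 = ∑ u ∈ I, fourier (s u) x := by
    intro x
    simp only [hE]
    rw [sq, Finset.sum_mul_sum, ← Finset.sum_product']
    refine Finset.sum_congr rfl fun u _ => ?_
    rw [fourier_smul, fourier_smul, ← fourier_add]
  have hpt : ∀ x, ((‖E x‖ ^ 4 : ℝ) : ℂ) = ∑ u ∈ I, ∑ v ∈ I, fourier (s u - s v) x := by
    intro x
    have h1 : ‖E x‖ ^ 4 = ‖E x ^ 2‖ ^ 2 := by rw [norm_pow]; ring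
    have h2 : ∀ w : ℂ, ((‖w‖ ^ 2 : ℝ) : ℂ) = w * (starRingEnd ℂ) w := by
      intro w
      rw [Complex.mul_conj, Complex.normSq_eq_norm_sq]
    rw [h1, h2, hsq, map_sum, Finset.sum_mul_sum]
    refine Finset.sum_congr rfl fun u _ => Finset.sum_congr rfl fun v _ => ?_
    rw [← fourier_neg, sub_eq_add_neg]
    exact fourier_add.symm
  have hint : ((∫ x : T, ‖E x‖ ^ 4 : ℝ) : ℂ) =
      ((∑ u ∈ I, ((I.filter fun v => s u = s v).card : ℝ) : ℝ) : ℂ) := by
    rw [← integral_complex_ofReal]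
    simp_rw [hpt]
    rw [integral_finsetSum _ fun u _ => integrable_finsetSum _ fun v _ =>
      integrable_cont volume (fourier (s u - s v))]
    push_cast
    refine Finset.sum_congr rfl fun u _ => ?_
    rw [integral_finsetSum _ fun v _ => integrable_cont volume (fourier (s u - s v)),
      Finset.card_filter]
    push_cast
    refine Finset.sum_congr rfl fun v _ => ?_
    split_ifs with h
    · rw [h, sub_self]; simp
    · exact Pool.Agent.H847R3.XpXq.integral_fourier_zero (sub_ne_zero.2 h)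
  have hint' : ∫ x : T, ‖E x‖ ^ 4 = ∑ u ∈ I, ((I.filter fun v => s u = s v).card : ℝ) := by
    exact_mod_cast hint
  rw [hint']
  have hcard : ∀ u ∈ I, ((I.filter fun v => s u = s v).card : ℝ) ≤ B := by
    intro u _
    have hsub : I.filter (fun v => s u = s v) ⊆ I.filter fun v => v.1 + v.2 = u.1 + u.2 := by
      intro v hv
      rw [Finset.mem_filter] at hv ⊢
      refine ⟨hv.1, ?_⟩
      have h1 : m * ((u.1 + u.2 : ℕ) : ℤ) = m * ((v.1 + v.2 : ℕ) : ℤ) := by
        have := hv.2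
        simp only [hs] at this
        push_cast at this ⊢
        linarith
      exact_mod_cast (mul_left_cancel₀ hm h1).symm
    have := (Finset.card_le_card hsub).trans (hB (u.1 + u.2))
    exact_mod_cast this
  calc ∑ u ∈ I, ((I.filter fun v => s u = s v).card : ℝ) ≤ ∑ u ∈ I, (B : ℝ) :=
        Finset.sum_le_sum hcard
    _ = B * (S.card : ℝ) ^ 2 := by
        rw [Finset.sum_const, hI, Finset.card_product, nsmul_eq_mul]
        push_cast
        ring

/-- the shell averages converge Lebesgue almost everywhere -/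
theorem conv_vol {p q : ℕ} (hp : 2 ≤ p) (hq : 2 ≤ q) (hpq : Nat.Coprime p q) {ϑ : ℝ}
    (hϑ : 1 < ϑ) : ∀ᵐ x ∂(volume : Measure T), Conv p q ϑ x := by
  have hirr := irr_of_coprime hp hq hpq
  obtain ⟨c, M, hc, hgr⟩ := card_growth hp hq hϑ hirr
  obtain ⟨B, hB⟩ := pair_card hp hq hpq hϑ
  obtain ⟨k1, hk1⟩ := exists_nat_ge ((2 * |M| + 2) / c)
  have hcard : ∀ k, k1 ≤ k → c / 2 * k + 1 ≤ (shell p q ϑ k).card := by
    intro k hk
    have h1 := hgr k
    have h2 : (2 * |M| + 2) / c ≤ k := hk1.trans (by exact_mod_cast hk)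
    rw [div_le_iff₀ hc] at h2
    have h3 := le_abs_self M
    linarith
  unfold Conv
  rw [ae_all_iff]
  intro m
  rcases eq_or_ne m 0 with rfl | hm
  · refine Eventually.of_forall fun x => ⟨1, ?_⟩
    refine tendsto_const_nhds.congr' ?_
    filter_upwards [eventually_ge_atTop k1] with k hk
    have h1 := hcard k hk
    have h2 : (0 : ℝ) < (shell p q ϑ k).card := by
      have : 0 ≤ c / 2 * k := by positivity
      linarith
    unfold avg
    simp only [fourier_zero, Finset.sum_const, nsmul_eq_mul, mul_one, Complex.real_smul]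
    push_cast
    rw [inv_mul_cancel₀]
    exact_mod_cast h2.ne'
  · set f : ℕ → T → ℝ≥0∞ := fun k x =>
      ENNReal.ofReal (‖avg p q ϑ (fun y : T => fourier m y) (k + (k1 + 1)) x‖ ^ 4) with hf
    have hcont : ∀ k, Continuous fun x => avg p q ϑ (fun y : T => fourier m y) k x := by
      intro k
      unfold avg
      simp_rw [Complex.real_smul]
      exact continuous_const.mul
        (continuous_finsetSum _ fun n _ => (fourier m).continuous.comp (continuous_nsmul _))
    have hfm : ∀ k, Measurable (f k) := fun k =>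
      ENNReal.measurable_ofReal.comp ((hcont _).norm.pow 4).measurable
    have hbound : ∀ k : ℕ, ∫⁻ x, f k x ≤
        ENNReal.ofReal (B * (4 / c ^ 2) * (1 / ((k + (k1 + 1) : ℕ) : ℝ) ^ 2)) := by
      intro k
      set j := k + (k1 + 1) with hj
      have hjc := hcard j (by omega)
      have hj0 : (0 : ℝ) < j := by exact_mod_cast (by omega : 0 < j)
      have hS0 : (0 : ℝ) < (shell p q ϑ j).card := by
        have : 0 ≤ c / 2 * j := by positivity
        linarith
      have hint : Integrable (fun x : T => ‖avg p q ϑ (fun y : T => fourier m y) j x‖ ^ 4)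
          (volume : Measure T) :=
        Pool.Agent.H847R3.XpXq.integrable_of_cont ((hcont j).norm.pow 4) _
      have h1 : ∫⁻ x, f k x = ENNReal.ofReal
          (∫ x : T, ‖avg p q ϑ (fun y : T => fourier m y) j x‖ ^ 4) := by
        rw [ofReal_integral_eq_lintegral_ofReal hint
          (Eventually.of_forall fun x => by positivity)]
      rw [h1]
      refine ENNReal.ofReal_le_ofReal ?_
      have h2 : ∀ x : T, ‖avg p q ϑ (fun y : T => fourier m y) j x‖ ^ 4 =
          ((shell p q ϑ j).card : ℝ)⁻¹ ^ 4 * ‖∑ n ∈ shell p q ϑ j, fourier m (n • x)‖ ^ 4 := by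
        intro x
        unfold avg
        rw [norm_smul, mul_pow, norm_inv, Real.norm_of_nonneg hS0.le]
      simp_rw [h2]
      rw [integral_const_mul]
      have h3 := fourth_gen (shell p q ϑ j) hm B (fun s => by
        have := hB j s
        convert this)
      calc ((shell p q ϑ j).card : ℝ)⁻¹ ^ 4 * ∫ x : T, ‖∑ n ∈ shell p q ϑ j, fourier m (n • x)‖ ^ 4
          ≤ ((shell p q ϑ j).card : ℝ)⁻¹ ^ 4 * (B * ((shell p q ϑ j).card : ℝ) ^ 2) := by
            gcongr
        _ = B * (1 / ((shell p q ϑ j).card : ℝ) ^ 2) := by field_simp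
        _ ≤ B * (1 / (c / 2 * j) ^ 2) := by
            gcongr
            linarith
        _ = B * (4 / c ^ 2) * (1 / (j : ℝ) ^ 2) := by field_simp; ring
    have hsum : ∫⁻ x, ∑' k, f k x ≠ ⊤ := by
      rw [lintegral_tsum fun k => (hfm k).aemeasurable]
      have hs : Summable fun k : ℕ => B * (4 / c ^ 2) * (1 / ((k + (k1 + 1) : ℕ) : ℝ) ^ 2) := by
        have h1 : Summable fun k : ℕ => B * (4 / c ^ 2) * (1 / (k : ℝ) ^ 2) :=
          (Real.summable_one_div_nat_pow.2 (by norm_num)).mul_left _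
        exact (summable_nat_add_iff (k1 + 1)).2 h1
      refine ne_top_of_le_ne_top ?_ (ENNReal.tsum_le_tsum hbound)
      rw [← ENNReal.ofReal_tsum_of_nonneg (fun k => by positivity) hs]
      exact ENNReal.ofReal_ne_top
    have hae := ae_lt_top (Measurable.tsum hfm) hsum
    filter_upwards [hae] with x hx
    refine ⟨0, ?_⟩
    have h1 : Tendsto (fun k => f k x) atTop (𝓝 0) :=
      ENNReal.tendsto_atTop_zero_of_tsum_ne_top hx.ne
    rw [← tendsto_add_atTop_iff_nat (k1 + 1), tendsto_zero_iff_norm_tendsto_zero]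
    have h2 : Tendsto (fun k => (f k x).toReal) atTop (𝓝 0) := by
      have := (ENNReal.tendsto_toReal (by simp : (0 : ℝ≥0∞) ≠ ⊤)).comp h1
      rwa [ENNReal.toReal_zero] at this
    have h3 : ∀ k, (f k x).toReal =
        ‖avg p q ϑ (fun y : T => fourier m y) (k + (k1 + 1)) x‖ ^ 4 := by
      intro k
      exact ENNReal.toReal_ofReal (by positivity)
    simp_rw [h3] at h2
    have h5 := (Real.continuous_sqrt.tendsto 0).comp h2
    rw [Real.sqrt_zero] at h5
    have h4 := (Real.continuous_sqrt.tendsto 0).comp h5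
    rw [Real.sqrt_zero] at h4
    refine h4.congr fun k => ?_
    show √(√(‖avg p q ϑ (fun y : T => fourier m y) (k + (k1 + 1)) x‖ ^ 4)) = _
    have e : ‖avg p q ϑ (fun y : T => fourier m y) (k + (k1 + 1)) x‖ ^ 4 =
        (‖avg p q ϑ (fun y : T => fourier m y) (k + (k1 + 1)) x‖ ^ 2) ^ 2 := by ring
    rw [e, Real.sqrt_sq (by positivity), Real.sqrt_sq (norm_nonneg _)]

end Pool.Agent.W764.SH
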